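import Mathlib

set_option autoImplicit false

/-!
Quasi-identities, conjunction of quasi-identities, and the groups `SD R B ω = R ⋊ B`.
-/

namespace Pool.Agent.Helper111.QI

/-- A quasi-identity in `n` variables: a finite list of premises and a conclusion. -/
abbrev QId := (n : ℕ) × (List (FreeGroup (Fin n)) × FreeGroup (Fin n))

/-- `Sat H q`: the quasi-identity `q` holds in the group `H`. -/
def Sat (H : Type*) [Group H] (q : QId) : Prop :=
  ∀ f : Fin q.1 → H, (∀ p ∈ q.2.1, FreeGroup.lift f p = 1) → FreeGroup.lift f q.2.2 = 1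

/-- torsion-freeness in the form used in the problem -/
def TF (H : Type*) [Group H] : Prop := ∀ h : H, h ≠ 1 → ∀ k : ℕ, 0 < k → h ^ k ≠ 1

theorem lift_hom {n : ℕ} {H K : Type*} [Group H] [Group K] (g : H →* K) (f : Fin n → H)
    (w : FreeGroup (Fin n)) : FreeGroup.lift (fun i => g (f i)) w = g (FreeGroup.lift f w) := by
  have : FreeGroup.lift (fun i => g (f i)) = g.comp (FreeGroup.lift f) := by
    ext i
    simp
  rw [this]
  rfl

/-- quasi-identities pass to subgroups -/
theorem Sat.of_injective {H K : Type*} [Group H] [Group K] (g : H →* K)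
    (hg : Function.Injective g) {q : QId} (h : Sat K q) : Sat H q := by
  intro f hf
  apply hg
  have h2 := h (fun i => g (f i)) (by
    intro p hp
    rw [lift_hom, hf p hp, map_one])
  rw [lift_hom] at h2
  rw [h2, map_one]

/-- the two variable-renaming maps used in conjunctions -/
def inlW (n m : ℕ) : FreeGroup (Fin n) →* FreeGroup (Fin (n + m)) :=
  FreeGroup.map (Fin.castAdd m)

def inrW (n m : ℕ) : FreeGroup (Fin m) →* FreeGroup (Fin (n + m)) :=
  FreeGroup.map (Fin.natAdd n)

theorem lift_inlW {n m : ℕ} {H : Type*} [Group H] (f : Fin (n + m) → H) (w : FreeGroup (Fin n)) :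
    FreeGroup.lift f (inlW n m w) = FreeGroup.lift (fun i => f (Fin.castAdd m i)) w := by
  have : (FreeGroup.lift f).comp (inlW n m) = FreeGroup.lift (fun i => f (Fin.castAdd m i)) := by
    ext i
    simp [inlW]
  exact DFunLike.congr_fun this w

theorem lift_inrW {n m : ℕ} {H : Type*} [Group H] (f : Fin (n + m) → H) (w : FreeGroup (Fin m)) :
    FreeGroup.lift f (inrW n m w) = FreeGroup.lift (fun i => f (Fin.natAdd n i)) w := by
  have : (FreeGroup.lift f).comp (inrW n m) = FreeGroup.lift (fun i => f (Fin.natAdd n i)) := by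
    ext i
    simp [inrW]
  exact DFunLike.congr_fun this w

/-- the conjunction of two quasi-identities, as one quasi-identity -/
def conj (q r : QId) : QId :=
  ⟨q.1 + r.1, (q.2.1.map (inlW q.1 r.1) ++ r.2.1.map (inrW q.1 r.1),
    inlW q.1 r.1 q.2.2 * inrW q.1 r.1 r.2.2)⟩

theorem lift_one {n : ℕ} {H : Type*} [Group H] (w : FreeGroup (Fin n)) :
    FreeGroup.lift (fun _ : Fin n => (1 : H)) w = 1 := by
  have : FreeGroup.lift (fun _ : Fin n => (1 : H)) = 1 := by
    ext i
    simp
  rw [this]
  rfl

/-- a quasi-identity given by its parts -/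
def SatP (H : Type*) [Group H] {n : ℕ} (A : List (FreeGroup (Fin n))) (u : FreeGroup (Fin n)) :
    Prop :=
  ∀ f : Fin n → H, (∀ p ∈ A, FreeGroup.lift f p = 1) → FreeGroup.lift f u = 1

theorem sat_iff {H : Type*} [Group H] (q : QId) : Sat H q ↔ SatP H q.2.1 q.2.2 := Iff.rfl

theorem satP_conj_iff {H : Type*} [Group H] {n m : ℕ} (A : List (FreeGroup (Fin n)))
    (u : FreeGroup (Fin n)) (B : List (FreeGroup (Fin m))) (v : FreeGroup (Fin m)) :
    SatP H (A.map (inlW n m) ++ B.map (inrW n m)) (inlW n m u * inrW n m v) ↔
      SatP H A u ∧ SatP H B v := by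
  constructor
  · intro h
    constructor
    · intro f hf
      have := h (Fin.append f (fun _ => 1)) (by
        intro p hp
        simp only [List.mem_append, List.mem_map] at hp
        rcases hp with ⟨a, ha, rfl⟩ | ⟨a, ha, rfl⟩
        · rw [lift_inlW]
          simpa using hf a ha
        · rw [lift_inrW]
          simp only [Fin.append_right]
          exact lift_one a)
      rw [map_mul, lift_inlW, lift_inrW] at this
      simp only [Fin.append_right, Fin.append_left] at this
      rw [lift_one, mul_one] at this
      exact this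
    · intro f hf
      have := h (Fin.append (fun _ => 1) f) (by
        intro p hp
        simp only [List.mem_append, List.mem_map] at hp
        rcases hp with ⟨a, ha, rfl⟩ | ⟨a, ha, rfl⟩
        · rw [lift_inlW]
          simp only [Fin.append_left]
          exact lift_one a
        · rw [lift_inrW]
          simpa using hf a ha)
      rw [map_mul, lift_inlW, lift_inrW] at this
      simp only [Fin.append_right, Fin.append_left] at this
      rw [lift_one, one_mul] at this
      exact this
  · rintro ⟨h1, h2⟩ f hf
    rw [map_mul, lift_inlW, lift_inrW, h1, h2, mul_one]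
    · intro p hp
      have := hf (inrW n m p) (by
        rw [List.mem_append]; right; exact List.mem_map_of_mem hp)
      rwa [lift_inrW] at this
    · intro p hp
      have := hf (inlW n m p) (by
        rw [List.mem_append]; left; exact List.mem_map_of_mem hp)
      rwa [lift_inlW] at this

theorem sat_conj_iff {H : Type*} [Group H] (q r : QId) :
    Sat H (conj q r) ↔ Sat H q ∧ Sat H r :=
  satP_conj_iff q.2.1 q.2.2 r.2.1 r.2.2

/-- The semidirect product `R ⋊ B` where `b : B` acts on `R` by multiplication by the unit
`ω b`. -/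
@[ext]
structure SD (R B : Type*) [CommRing R] [AddCommGroup B] (ω : Multiplicative B →* Rˣ) where
  fst : R
  snd : B

namespace SD

variable {R B : Type*} [CommRing R] [AddCommGroup B] {ω : Multiplicative B →* Rˣ}

/-- the multiplier of `b` -/
abbrev act (ω : Multiplicative B →* Rˣ) (b : B) : R := ((ω (Multiplicative.ofAdd b) : Rˣ) : R)

theorem act_add (a b : B) : act ω (a + b) = act ω a * act ω b := by
  simp [act, ofAdd_add]

@[simp] theorem act_zero : act ω (0 : B) = 1 := by
  simp [act]

theorem act_neg_mul (b : B) : act ω (-b) * act ω b = 1 := by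
  rw [← act_add]; simp

theorem act_mul_neg (b : B) : act ω b * act ω (-b) = 1 := by
  rw [← act_add]; simp

instance : Mul (SD R B ω) := ⟨fun x y => ⟨x.fst + act ω x.snd * y.fst, x.snd + y.snd⟩⟩
instance : One (SD R B ω) := ⟨⟨0, 0⟩⟩
instance : Inv (SD R B ω) := ⟨fun x => ⟨-(act ω (-x.snd) * x.fst), -x.snd⟩⟩

@[simp] theorem mul_fst (x y : SD R B ω) : (x * y).fst = x.fst + act ω x.snd * y.fst := rfl
@[simp] theorem mul_snd (x y : SD R B ω) : (x * y).snd = x.snd + y.snd := rfl
@[simp] theorem one_fst : (1 : SD R B ω).fst = 0 := rfl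
@[simp] theorem one_snd : (1 : SD R B ω).snd = 0 := rfl
@[simp] theorem inv_fst (x : SD R B ω) : (x⁻¹).fst = -(act ω (-x.snd) * x.fst) := rfl
@[simp] theorem inv_snd (x : SD R B ω) : (x⁻¹).snd = -x.snd := rfl

instance : Group (SD R B ω) :=
  Group.ofLeftAxioms
    (by
      intro a b c
      ext
      · simp only [mul_fst, mul_snd, act_add]; ring
      · simp only [mul_snd]; abel)
    (by
      intro a
      ext
      · simp
      · simp)
    (by
      intro a
      ext
      · simp
      · simp)

/-- projection to the top group -/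
def topHom : SD R B ω →* Multiplicative B where
  toFun x := Multiplicative.ofAdd x.snd
  map_one' := rfl
  map_mul' _ _ := rfl

@[simp] theorem topHom_apply (x : SD R B ω) : topHom x = Multiplicative.ofAdd x.snd := rfl

/-- inclusion of the top group -/
def inTop (ω : Multiplicative B →* Rˣ) : Multiplicative B →* SD R B ω where
  toFun b := ⟨0, b.toAdd⟩
  map_one' := rfl
  map_mul' _ _ := by ext <;> simp

variable {R' B' : Type*} [CommRing R'] [AddCommGroup B'] {ω' : Multiplicative B' →* R'ˣ}

/-- functoriality of `R ⋊ B` -/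
def map (l : R →+ R') (g : B →+ B') (h : ∀ b r, l (act ω b * r) = act ω' (g b) * l r) :
    SD R B ω →* SD R' B' ω' where
  toFun x := ⟨l x.fst, g x.snd⟩
  map_one' := by ext <;> simp
  map_mul' x y := by
    ext
    · simp [h]
    · simp

@[simp] theorem map_fst (l : R →+ R') (g : B →+ B')
    (h : ∀ b r, l (act ω b * r) = act ω' (g b) * l r) (x : SD R B ω) :
    (map l g h x).fst = l x.fst := rfl

@[simp] theorem map_snd (l : R →+ R') (g : B →+ B')
    (h : ∀ b r, l (act ω b * r) = act ω' (g b) * l r) (x : SD R B ω) :
    (map l g h x).snd = g x.snd := rfl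

theorem map_injective (l : R →+ R') (g : B →+ B')
    (h : ∀ b r, l (act ω b * r) = act ω' (g b) * l r)
    (hl : Function.Injective l) (hg : Function.Injective g) :
    Function.Injective (map l g h) := by
  intro x y hxy
  ext
  · apply hl
    exact congrArg SD.fst hxy
  · apply hg
    exact congrArg SD.snd hxy

end SD

end Pool.Agent.Helper111.QI
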