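import Mathlib

set_option autoImplicit false

namespace Pool.Agent.Helper111.QI

open Polynomial

/-- coefficients of a multiple of the cyclotomic polynomial of prime power order -/
theorem coeff_cyc_mul (p j : ℕ) (hp : p.Prime) (g : ℤ[X]) (hg : g.natDegree < p ^ j)
    (a l : ℕ) (ha : a < p ^ j) (hl : l < p) :
    (cyclotomic (p ^ (j + 1)) ℤ * g).coeff (a + l * p ^ j) = g.coeff a := by
  have : Fact p.Prime := ⟨hp⟩
  rw [cyclotomic_prime_pow_eq_geom_sum hp, Finset.sum_mul, finsetSum_coeff]
  rw [Finset.sum_eq_single l]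
  · rw [← pow_mul, coeff_X_pow_mul', if_pos (by nlinarith)]
    congr 1
    rw [mul_comm (p ^ j) l]
    omega
  · intro m hm hml
    rw [← pow_mul, coeff_X_pow_mul']
    split_ifs with h
    · apply coeff_eq_zero_of_natDegree_lt
      rcases lt_or_gt_of_ne hml with h1 | h1
      · have h2 : (m + 1) * p ^ j ≤ l * p ^ j := Nat.mul_le_mul_right _ h1
        have h3 : p ^ j ≤ a + l * p ^ j - p ^ j * m := by
          have : p ^ j * m = m * p ^ j := mul_comm _ _
          rw [this]
          have h4 : (m + 1) * p ^ j = m * p ^ j + p ^ j := by ring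
          omega
        omega
      · exfalso
        have h2 : (l + 1) * p ^ j ≤ m * p ^ j := Nat.mul_le_mul_right _ h1
        have h4 : (l + 1) * p ^ j = l * p ^ j + p ^ j := by ring
        have : p ^ j * m = m * p ^ j := mul_comm _ _
        omega
    · rfl
  · intro h
    exact absurd (Finset.mem_range.2 hl) h

/-- A `ℤ`-linear relation with fewer than `p` terms between distinct `p^(j+1)`-th roots of unity
is trivial. -/
theorem vanish {ι : Type*} (p j : ℕ) (hp : p.Prime) (ζ : ℂ)
    (hζ : IsPrimitiveRoot ζ (p ^ (j + 1))) (s : Finset ι) (e : ι → ℤ) (c : ι → ℤ)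
    (hinj : ∀ k ∈ s, ∀ l ∈ s, ζ ^ e k = ζ ^ e l → k = l) (hcard : s.card < p)
    (hsum : ∑ k ∈ s, (c k : ℂ) * ζ ^ e k = 0) : ∀ k ∈ s, c k = 0 := by
  classical
  set N := p ^ (j + 1) with hN
  have hNpos : 0 < N := pow_pos hp.pos _
  have hNZ : (0 : ℤ) < (N : ℤ) := by exact_mod_cast hNpos
  set n : ι → ℕ := fun k => (e k % (N : ℤ)).toNat with hn
  have hnZ : ∀ k, ((n k : ℕ) : ℤ) = e k % (N : ℤ) := by
    intro k
    exact Int.toNat_of_nonneg (Int.emod_nonneg _ hNZ.ne')
  have hnlt : ∀ k, n k < N := by
    intro k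
    have := Int.emod_lt_of_pos (e k) hNZ
    rw [← hnZ k] at this
    exact_mod_cast this
  have hζ0 : ζ ≠ 0 := hζ.ne_zero hNpos.ne'
  have hpow : ∀ k, ζ ^ n k = ζ ^ e k := by
    intro k
    have h1 : e k = (n k : ℤ) + (N : ℤ) * (e k / N) := by
      rw [hnZ]
      exact (Int.emod_add_mul_ediv (e k) N).symm
    rw [h1, zpow_add₀ hζ0, zpow_mul]
    have h2 : ζ ^ ((N : ℕ) : ℤ) = 1 := by
      rw [zpow_natCast]
      exact hζ.pow_eq_one
    rw [h2, one_zpow, mul_one, zpow_natCast]
  have hninj : ∀ k ∈ s, ∀ l ∈ s, n k = n l → k = l := by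
    intro k hk l hl h
    apply hinj k hk l hl
    rw [← hpow, ← hpow, h]
  set f : ℤ[X] := ∑ k ∈ s, C (c k) * X ^ n k with hf
  have hfζ : aeval ζ f = 0 := by
    rw [hf, map_sum, ← hsum]
    apply Finset.sum_congr rfl
    intro k _
    simp [hpow]
  have hcoef : ∀ k ∈ s, f.coeff (n k) = c k := by
    intro k hk
    rw [hf, finsetSum_coeff, Finset.sum_eq_single k]
    · simp
    · intro l hl hlk
      rw [coeff_C_mul, coeff_X_pow, if_neg, mul_zero]
      intro h
      exact hlk (hninj k hk l hl h).symm
    · intro h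
      exact absurd hk h
  have hsupp : f.support ⊆ s.image n := by
    intro m hm
    rw [mem_support_iff, hf, finsetSum_coeff] at hm
    obtain ⟨k, hk, hk2⟩ := Finset.exists_ne_zero_of_sum_ne_zero hm
    rw [Finset.mem_image]
    refine ⟨k, hk, ?_⟩
    by_contra hne
    apply hk2
    rw [coeff_C_mul, coeff_X_pow, if_neg (fun h => hne h.symm), mul_zero]
  have hdvd : cyclotomic N ℤ ∣ f := by
    rw [cyclotomic_eq_minpoly hζ hNpos]
    exact minpoly.isIntegrallyClosed_dvd (hζ.isIntegral hNpos) hfζ
  obtain ⟨g, hg⟩ := hdvd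
  have hf0 : f = 0 := by
    by_contra hne
    have hg0 : g ≠ 0 := by
      rintro rfl
      exact hne (by rw [hg, mul_zero])
    have hfdeg : f.natDegree < N := by
      have h1 := hsupp (natDegree_mem_support_of_nonzero hne)
      rw [Finset.mem_image] at h1
      obtain ⟨k, _, hk⟩ := h1
      rw [← hk]
      exact hnlt k
    have hgdeg : g.natDegree < p ^ j := by
      have h1 : f.natDegree = (cyclotomic N ℤ).natDegree + g.natDegree := by
        rw [hg, natDegree_mul (cyclotomic_ne_zero N ℤ) hg0]
      rw [natDegree_cyclotomic, hN, Nat.totient_prime_pow_succ hp] at h1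
      have h2 : p ^ (j + 1) = p ^ j * (p - 1) + p ^ j := by
        have : p = (p - 1) + 1 := (Nat.sub_add_cancel hp.one_le).symm
        calc p ^ (j + 1) = p ^ j * p := pow_succ _ _
          _ = p ^ j * ((p - 1) + 1) := by rw [← this]
          _ = _ := by ring
      omega
    set a := g.natDegree with ha
    have h3 : (Finset.range p).image (fun l => a + l * p ^ j) ⊆ f.support := by
      intro m hm
      rw [Finset.mem_image] at hm
      obtain ⟨l, hl, rfl⟩ := hm
      rw [mem_support_iff, hg, coeff_cyc_mul p j hp g hgdeg a l hgdeg (Finset.mem_range.1 hl)]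
      exact leadingCoeff_ne_zero.2 hg0
    have h4 : ((Finset.range p).image (fun l => a + l * p ^ j)).card = p := by
      rw [Finset.card_image_of_injective, Finset.card_range]
      intro x y hxy
      simp only at hxy
      have : 0 < p ^ j := pow_pos hp.pos _
      exact Nat.eq_of_mul_eq_mul_right this (by omega)
    have h5 := Finset.card_le_card (h3.trans hsupp)
    rw [h4] at h5
    have h6 : (s.image n).card ≤ s.card := Finset.card_image_le
    omega
  intro k hk
  rw [← hcoef k hk, hf0, coeff_zero]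

end Pool.Agent.Helper111.QI
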