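import Mathlib
import Pool.Agent.Helper111.QI.Basic

set_option autoImplicit false

namespace Pool.Agent.Helper111.QI

/-- quasi-identities of `ℤ` hold in all torsion-free abelian groups -/
theorem sat_abelian {B : Type*} [AddCommGroup B] [Module.IsTorsionFree ℤ B] {q : QId}
    (hq : Sat (Multiplicative ℤ) q) : Sat (Multiplicative B) q := by
  intro f hf
  by_contra hu
  set b : Fin q.1 → B := fun i => (f i).toAdd with hb
  set M : Submodule ℤ B := Submodule.span ℤ (Set.range b) with hM
  have : Module.Finite ℤ M := Module.Finite.span_of_finite ℤ (Set.finite_range b)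
  have : Module.Free ℤ M := Module.free_of_finite_type_torsion_free'
  let f' : Fin q.1 → Multiplicative M := fun i =>
    Multiplicative.ofAdd ⟨b i, Submodule.subset_span (Set.mem_range_self i)⟩
  let ι : Multiplicative M →* Multiplicative B :=
    AddMonoidHom.toMultiplicative M.subtype.toAddMonoidHom
  have hι : Function.Injective ι := fun x y h => Subtype.ext h
  have hιf : (fun i => ι (f' i)) = f := by
    ext i
    rfl
  have hf' : ∀ p ∈ q.2.1, FreeGroup.lift f' p = 1 := by
    intro p hp
    apply hι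
    have h1 := hf p hp
    rw [← hιf, lift_hom] at h1
    rw [h1, map_one]
  have hu' : FreeGroup.lift f' q.2.2 ≠ 1 := by
    intro h
    apply hu
    rw [← hιf, lift_hom, h, map_one]
  have hv : (FreeGroup.lift f' q.2.2).toAdd ≠ 0 := hu'
  obtain ⟨φ, hφ⟩ : ∃ φ : Module.Dual ℤ M, φ (FreeGroup.lift f' q.2.2).toAdd ≠ 0 := by
    by_contra hcon
    push Not at hcon
    exact hv ((Module.forall_dual_apply_eq_zero_iff ℤ _).1 hcon)
  let g : Multiplicative M →* Multiplicative ℤ := AddMonoidHom.toMultiplicative φ.toAddMonoidHom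
  have h2 := hq (fun i => g (f' i)) (by
    intro p hp
    rw [lift_hom, hf' p hp, map_one])
  rw [lift_hom] at h2
  exact hφ h2

/-- separating finitely many nonzero elements of a free `ℤ`-module by one functional -/
theorem exists_sep {V : Type*} [AddCommGroup V] [Module.Free ℤ V] (s : Finset V)
    (hs : ∀ v ∈ s, v ≠ 0) : ∃ φ : V →ₗ[ℤ] ℤ, ∀ v ∈ s, φ v ≠ 0 := by
  classical
  induction s using Finset.induction_on with
  | empty => exact ⟨0, by simp⟩
  | insert v s hv ih =>
    obtain ⟨φ, hφ⟩ := ih (fun w hw => hs w (Finset.mem_insert_of_mem hw))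
    obtain ⟨ψ, hψ⟩ : ∃ ψ : Module.Dual ℤ V, ψ v ≠ 0 := by
      by_contra hcon
      push Not at hcon
      exact hs v (Finset.mem_insert_self v s) ((Module.forall_dual_apply_eq_zero_iff ℤ _).1 hcon)
    have hfin : ∀ w ∈ insert v s, {N : ℤ | N * φ w + ψ w = 0}.Finite := by
      intro w hw
      by_cases h0 : φ w = 0
      · have hwv : w = v := by
          rcases Finset.mem_insert.1 hw with h | h
          · exact h
          · exact absurd h0 (hφ w h)
        subst hwv
        have : {N : ℤ | N * φ w + ψ w = 0} = ∅ := by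
          ext N
          simp [h0, hψ]
        rw [this]
        exact Set.finite_empty
      · apply Set.Subsingleton.finite
        intro a ha b hb
        simp only [Set.mem_ofPred_eq] at ha hb
        have : (a - b) * φ w = 0 := by linarith
        rcases mul_eq_zero.1 this with h | h
        · linarith
        · exact absurd h h0
    have hfin2 : (⋃ w ∈ insert v s, {N : ℤ | N * φ w + ψ w = 0}).Finite :=
      Set.Finite.biUnion (Finset.finite_toSet _) (fun w hw => hfin w hw)
    obtain ⟨N, hN⟩ := hfin2.infinite_compl.nonempty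
    refine ⟨N • φ + ψ, fun w hw h => hN ?_⟩
    simp only [Set.mem_iUnion]
    refine ⟨w, hw, ?_⟩
    simpa using h

/-- canonical homomorphism into the units of the group ring -/
noncomputable def ofU (C : Type*) [CommGroup C] : C →* (MonoidAlgebra ℤ C)ˣ :=
  (Units.map (MonoidAlgebra.of ℤ C)).comp toUnits.toMonoidHom

theorem ofU_coe (C : Type*) [CommGroup C] (c : C) :
    ((ofU C c : (MonoidAlgebra ℤ C)ˣ) : MonoidAlgebra ℤ C) = MonoidAlgebra.single c 1 := by
  simp [ofU]

/-- the group `Z wr Z`, as `ℤ[ℤ] ⋊ ℤ` -/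
abbrev WZ : Type := SD (MonoidAlgebra ℤ (Multiplicative ℤ)) ℤ (ofU (Multiplicative ℤ))

/-- One may assume that the bottom coordinates lie in a subring `D` containing all
multipliers. -/
theorem reduce_subring {R B : Type*} [Field R] [AddCommGroup B] (ω : Multiplicative B →* Rˣ)
    (D : Subring R) (hD : ∀ b, SD.act ω b ∈ D) {n : ℕ} (A : List (FreeGroup (Fin n)))
    (u : FreeGroup (Fin n)) (f : Fin n → SD R B ω)
    (hA : ∀ p ∈ A, FreeGroup.lift f p = 1) (hu : (FreeGroup.lift f u).fst ≠ 0) :
    ∃ f' : Fin n → SD R B ω, (∀ i, (f' i).fst ∈ D) ∧ (∀ i, (f' i).snd = (f i).snd) ∧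
      (∀ p ∈ A, FreeGroup.lift f' p = 1) ∧ (FreeGroup.lift f' u).fst ≠ 0 := by
  classical
  set KD : Subfield R := Subfield.closure (D : Set R) with hKD
  have hDK : ∀ d ∈ D, d ∈ KD := fun d hd => Subfield.subset_closure hd
  obtain ⟨φ, hφ⟩ : ∃ φ : Module.Dual KD R, φ (FreeGroup.lift f u).fst ≠ 0 := by
    by_contra hcon
    push Not at hcon
    exact hu ((Module.forall_dual_apply_eq_zero_iff KD _).1 hcon)
  have hfrac : ∀ i : Fin n, ∃ y ∈ D, ∃ z ∈ D, z ≠ 0 ∧ z * ((φ (f i).fst : KD) : R) = y := by
    intro i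
    have h1 : ((φ (f i).fst : KD) : R) ∈ Subfield.closure (D : Set R) := (φ (f i).fst).2
    rw [Subfield.mem_closure_iff] at h1
    obtain ⟨y, hy, z, hz, hyz⟩ := h1
    rw [Subring.closure_eq] at hy hz
    by_cases hz0 : z = 0
    · refine ⟨0, D.zero_mem, 1, D.one_mem, one_ne_zero, ?_⟩
      rw [← hyz, hz0]
      simp
    · refine ⟨y, hy, z, hz, hz0, ?_⟩
      rw [← hyz]
      field_simp
  choose y hy z hz hz0 hyz using hfrac
  set T : R := ∏ i, z i with hT
  have hT0 : T ≠ 0 := Finset.prod_ne_zero_iff.2 (fun i _ => hz0 i)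
  have hTφ : ∀ i, T * ((φ (f i).fst : KD) : R) ∈ D := by
    intro i
    have : T = z i * ∏ j ∈ Finset.univ.erase i, z j :=
      (Finset.mul_prod_erase Finset.univ z (Finset.mem_univ i)).symm
    rw [this, mul_right_comm, hyz i]
    exact D.mul_mem (hy i) (Subring.prod_mem D (fun j _ => hz j))
  let l : R →+ R :=
    { toFun := fun r => T * ((φ r : KD) : R)
      map_zero' := by simp
      map_add' := by intro a b; simp [mul_add] }
  have hl : ∀ b r, l (SD.act ω b * r) = SD.act ω ((AddMonoidHom.id B) b) * l r := by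
    intro b r
    have h1 : φ (SD.act ω b * r) = (⟨SD.act ω b, hDK _ (hD b)⟩ : KD) * φ r := by
      exact φ.map_smul (⟨SD.act ω b, hDK _ (hD b)⟩ : KD) r
    simp only [l, AddMonoidHom.coe_mk, ZeroHom.coe_mk, AddMonoidHom.id_apply]
    rw [h1]
    push_cast
    ring
  let E : SD R B ω →* SD R B ω := SD.map l (AddMonoidHom.id B) hl
  refine ⟨fun i => E (f i), ?_, ?_, ?_, ?_⟩
  · intro i
    exact hTφ i
  · intro i
    rfl
  · intro p hp
    rw [lift_hom, hA p hp, map_one]
  · rw [lift_hom]
    simp only [E, SD.map_fst, l, AddMonoidHom.coe_mk, ZeroHom.coe_mk]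
    apply mul_ne_zero hT0
    intro h
    apply hφ
    exact Subtype.ext h

/-- A subgroup of the units of a field of characteristic zero that is linearly independent over
`ℤ` is torsion-free. -/
theorem torsionFree_of_li {R : Type*} [Field R] (C : Subgroup Rˣ)
    (hLI : LinearIndependent ℤ (fun c : C => ((c : Rˣ) : R))) :
    ∀ (c : C) (k : ℕ), 0 < k → c ^ k = 1 → c = 1 := by
  classical
  intro c k hk hck
  by_contra hc
  have hsum : ∑ i ∈ Finset.range k, (((c : Rˣ) : R)) ^ i = 0 := by
    have h1 := geom_sum_mul (((c : Rˣ) : R)) k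
    have h2 : (((c : Rˣ) : R)) ^ k = 1 := by
      have := congrArg (fun d : C => ((d : Rˣ) : R)) hck
      simpa using this
    rw [h2, sub_self] at h1
    rcases mul_eq_zero.1 h1 with h | h
    · exact h
    · exfalso
      apply hc
      apply Subtype.ext
      apply Units.ext
      simpa using sub_eq_zero.1 h
  have h3 : Finsupp.linearCombination ℤ (fun c : C => ((c : Rˣ) : R))
      (∑ i ∈ Finset.range k, Finsupp.single (c ^ i) (1 : ℤ)) = 0 := by
    rw [map_sum]
    simpa using hsum
  have h4 := linearIndependent_iff.1 hLI _ h3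
  have h5 := DFunLike.congr_fun h4 (1 : C)
  rw [Finsupp.finsetSum_apply] at h5
  have h6 : 0 < ∑ i ∈ Finset.range k, (Finsupp.single (c ^ i) (1 : ℤ)) (1 : C) := by
    apply Finset.sum_pos'
    · intro i _
      rw [Finsupp.single_apply]
      split_ifs <;> norm_num
    · exact ⟨0, Finset.mem_range.2 hk, by simp⟩
  rw [h5] at h6
  simp at h6

theorem coeff_zero_imp {C : Type*} (x : MonoidAlgebra ℤ C) (h : x.coeff = 0) : x = 0 := by
  cases x
  simp only at h
  rw [h]
  rfl

/-- **Key theorem.** If the multipliers of `R ⋊ B` are linearly independent over `ℤ`, then every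
quasi-identity of `Z wr Z` holds in `R ⋊ B`. -/
theorem key {R B : Type*} [Field R] [AddCommGroup B] [Module.IsTorsionFree ℤ B]
    (ω : Multiplicative B →* Rˣ)
    (hLI : LinearIndependent ℤ (fun c : ω.range => ((c : Rˣ) : R)))
    {q : QId} (hZ : Sat (Multiplicative ℤ) q) (hq : Sat WZ q) : Sat (SD R B ω) q := by
  classical
  intro f hf
  by_contra hu
  set b : Fin q.1 → B := fun i => (f i).snd with hb
  set M : Submodule ℤ B := Submodule.span ℤ (Set.range b) with hM
  have : Module.Finite ℤ M := Module.Finite.span_of_finite ℤ (Set.finite_range b)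
  let ω₁ : Multiplicative M →* Rˣ :=
    ω.comp (AddMonoidHom.toMultiplicative M.subtype.toAddMonoidHom)
  let ι : SD R M ω₁ →* SD R B ω :=
    SD.map (AddMonoidHom.id R) M.subtype.toAddMonoidHom (fun b r => rfl)
  have hι : Function.Injective ι :=
    SD.map_injective _ _ _ Function.injective_id Subtype.val_injective
  let f₁ : Fin q.1 → SD R M ω₁ := fun i =>
    ⟨(f i).fst, ⟨b i, Submodule.subset_span (Set.mem_range_self i)⟩⟩
  have hιf : (fun i => ι (f₁ i)) = f := by
    funext i
    rfl
  have hA₁ : ∀ p ∈ q.2.1, FreeGroup.lift f₁ p = 1 := by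
    intro p hp
    apply hι
    have h1 := hf p hp
    rw [← hιf, lift_hom] at h1
    rw [h1, map_one]
  have hu₁ : FreeGroup.lift f₁ q.2.2 ≠ 1 := by
    intro h
    apply hu
    rw [← hιf, lift_hom, h, map_one]
  -- the top coordinate vanishes
  have htop : ∀ g : Fin q.1 → SD R M ω₁, (∀ p ∈ q.2.1, FreeGroup.lift g p = 1) →
      (FreeGroup.lift g q.2.2).snd = 0 := by
    intro g hg
    have h1 : Sat (Multiplicative M) q := sat_abelian hZ
    have h2 := h1 (fun i => SD.topHom (g i)) (by
      intro p hp
      rw [lift_hom, hg p hp, map_one])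
    rw [lift_hom] at h2
    exact h2
  have hfst₁ : (FreeGroup.lift f₁ q.2.2).fst ≠ 0 := by
    intro h
    apply hu₁
    apply SD.ext
    · exact h
    · exact htop f₁ hA₁
  -- the group of multipliers and its group ring
  set C : Subgroup Rˣ := ω₁.range with hC
  have hCle : C ≤ ω.range := by
    rintro _ ⟨x, rfl⟩
    exact ⟨_, rfl⟩
  have hLI₁ : LinearIndependent ℤ (fun c : C => ((c : Rˣ) : R)) :=
    hLI.comp (Subgroup.inclusion hCle) (Subgroup.inclusion_injective hCle)
  let r₁ : Multiplicative M →* C := ω₁.rangeRestrict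
  let ωS : Multiplicative M →* (MonoidAlgebra ℤ C)ˣ := (ofU C).comp r₁
  let η : MonoidAlgebra ℤ C →+* R :=
    (MonoidAlgebra.lift ℤ R C ((Units.coeHom R).comp C.subtype)).toRingHom
  have hηs : ∀ c : C, η (MonoidAlgebra.single c 1) = ((c : Rˣ) : R) := by
    intro c
    simp [η]
  have hηinj : Function.Injective η := by
    rw [injective_iff_map_eq_zero]
    intro x hx
    have h1 : Finsupp.linearCombination ℤ (fun c : C => ((c : Rˣ) : R)) x.coeff = 0 := by
      have h2 : η x = x.coeff.sum (fun a b => b • ((a : Rˣ) : R)) := by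
        simp only [η]
        exact MonoidAlgebra.lift_apply _ _
      rw [hx] at h2
      rw [Finsupp.linearCombination_apply]
      exact h2.symm
    exact coeff_zero_imp x (linearIndependent_iff.1 hLI₁ _ h1)
  have hD : ∀ b : M, SD.act ω₁ b ∈ η.range := by
    intro b
    exact ⟨MonoidAlgebra.single (r₁ (Multiplicative.ofAdd b)) 1, hηs _⟩
  obtain ⟨f₂, hf₂D, hf₂s, hA₂, hu₂⟩ := reduce_subring ω₁ η.range hD q.2.1 q.2.2 f₁ hA₁ hfst₁
  choose s hs using hf₂D
  let E1 : SD (MonoidAlgebra ℤ C) M ωS →* SD R M ω₁ :=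
    SD.map η.toAddMonoidHom (AddMonoidHom.id M) (by
      intro b r
      simp only [RingHom.toAddMonoidHom_eq_coe, AddMonoidHom.coe_coe, map_mul,
        AddMonoidHom.id_apply]
      congr 1
      simp only [SD.act, ωS, MonoidHom.comp_apply, ofU_coe]
      rw [hηs]
      rfl)
  have hE1 : Function.Injective E1 :=
    SD.map_injective _ _ _ hηinj Function.injective_id
  let f₃ : Fin q.1 → SD (MonoidAlgebra ℤ C) M ωS := fun i => ⟨s i, (f₂ i).snd⟩
  have hEf : (fun i => E1 (f₃ i)) = f₂ := by
    funext i
    apply SD.ext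
    · exact hs i
    · rfl
  have hA₃ : ∀ p ∈ q.2.1, FreeGroup.lift f₃ p = 1 := by
    intro p hp
    apply hE1
    have h1 := hA₂ p hp
    rw [← hEf, lift_hom] at h1
    rw [h1, map_one]
  have hu₃ : (FreeGroup.lift f₃ q.2.2).fst ≠ 0 := by
    intro h
    apply hu₂
    rw [← hEf, lift_hom]
    change η _ = 0
    rw [h, map_zero]
  -- separate the support
  set y : MonoidAlgebra ℤ C := (FreeGroup.lift f₃ q.2.2).fst with hy
  have hVfin : Module.Finite ℤ (Additive C) := by
    let g : M →+ Additive C :=
      { toFun := fun m => Additive.ofMul (r₁ (Multiplicative.ofAdd m))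
        map_zero' := by
          change Additive.ofMul (r₁ 1) = 0
          rw [map_one]; rfl
        map_add' := by
          intro a b
          change Additive.ofMul (r₁ (Multiplicative.ofAdd a * Multiplicative.ofAdd b)) = _
          rw [map_mul]; rfl }
    apply Module.Finite.of_surjective g.toIntLinearMap
    intro c
    obtain ⟨x, hx⟩ := ω₁.rangeRestrict_surjective c.toMul
    exact ⟨x.toAdd, congrArg Additive.ofMul hx⟩
  have hVtf : Module.IsTorsionFree ℤ (Additive C) := by
    apply Module.IsTorsionFree.of_smul_eq_zero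
    intro r m hrm
    by_cases hr : r = 0
    · exact Or.inl hr
    · right
      have h1 : (m.toMul) ^ (r.natAbs) = 1 := by
        have h2 : (r.natAbs : ℤ) • m = 0 := by
          rcases Int.natAbs_eq r with h | h
          · rw [← h]; exact hrm
          · rw [show (r.natAbs : ℤ) = -r by omega, neg_smul, hrm, neg_zero]
        rw [natCast_zsmul] at h2
        exact congrArg Additive.toMul h2
      exact congrArg Additive.ofMul
        (torsionFree_of_li C hLI₁ m.toMul r.natAbs (Int.natAbs_pos.2 hr) h1)
  have hVfree : Module.Free ℤ (Additive C) := Module.free_of_finite_type_torsion_free'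
  obtain ⟨φ, hφ⟩ := exists_sep (V := Additive C)
    (((y.coeff.support ×ˢ y.coeff.support).filter (fun p => p.1 ≠ p.2)).image
      (fun p => Additive.ofMul (p.1 * p.2⁻¹))) (by
      intro v hv
      simp only [Finset.mem_image, Finset.mem_filter, Finset.mem_product] at hv
      obtain ⟨p, ⟨_, hp⟩, rfl⟩ := hv
      intro h
      apply hp
      have h1 : p.1 * p.2⁻¹ = 1 := congrArg Additive.toMul h
      exact mul_inv_eq_one.1 h1)
  let θ : C →* Multiplicative ℤ :=
    { toFun := fun c => Multiplicative.ofAdd (φ (Additive.ofMul c))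
      map_one' := by
        change Multiplicative.ofAdd (φ 0) = 1
        rw [map_zero]; rfl
      map_mul' := by
        intro a b
        change Multiplicative.ofAdd (φ (Additive.ofMul a + Additive.ofMul b)) = _
        rw [map_add]; rfl }
  have hθ : Set.InjOn θ (y.coeff.support : Set C) := by
    intro a ha b hb hab
    by_contra hne
    have h1 := hφ (Additive.ofMul (a * b⁻¹)) (by
      simp only [Finset.mem_image, Finset.mem_filter, Finset.mem_product]
      exact ⟨(a, b), ⟨⟨ha, hb⟩, hne⟩, rfl⟩)
    apply h1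
    have h2 : θ (a * b⁻¹) = 1 := by
      rw [map_mul, map_inv, hab, mul_inv_cancel]
    exact h2
  let ψ : M →+ ℤ :=
    { toFun := fun m => (θ (r₁ (Multiplicative.ofAdd m))).toAdd
      map_zero' := by
        change (θ (r₁ 1)).toAdd = 0
        rw [map_one, map_one]; rfl
      map_add' := by
        intro a b
        change (θ (r₁ (Multiplicative.ofAdd a * Multiplicative.ofAdd b))).toAdd = _
        rw [map_mul, map_mul]; rfl }
  let E3 : SD (MonoidAlgebra ℤ C) M ωS →* WZ :=
    SD.map (MonoidAlgebra.mapDomainRingHom ℤ θ).toAddMonoidHom ψ (by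
      intro b r
      simp only [RingHom.toAddMonoidHom_eq_coe, AddMonoidHom.coe_coe, map_mul]
      congr 1
      simp only [SD.act, ωS, MonoidHom.comp_apply, ofU_coe]
      simp [ψ])
  have h7 := hq (fun i => E3 (f₃ i)) (by
    intro p hp
    rw [lift_hom, hA₃ p hp, map_one])
  rw [lift_hom] at h7
  have h8 : MonoidAlgebra.mapDomainRingHom ℤ θ y = 0 := congrArg SD.fst h7
  obtain ⟨a, ha⟩ : y.coeff.support.Nonempty := by
    rw [Finsupp.support_nonempty_iff]
    intro h
    exact hu₃ (coeff_zero_imp y h)
  have h9 : Finsupp.mapDomain θ y.coeff (θ a) = y.coeff a :=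
    Finsupp.mapDomain_apply' (S := (y.coeff.support : Set C)) y.coeff (le_refl _) hθ ha
  have h10 : Finsupp.mapDomain θ y.coeff = 0 := by
    have := congrArg MonoidAlgebra.coeff h8
    simpa using this
  rw [h10] at h9
  exact (Finsupp.mem_support_iff.1 ha) h9.symm

end Pool.Agent.Helper111.QI
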