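import Mathlib
import Pool.Agent.Helper111.QI.Key

set_option autoImplicit false

namespace Pool.Agent.Helper111.QI

open scoped commutatorElement

/-- commutative group structure on a commutative subgroup -/
abbrev cg {H : Type*} [Group H] (N : Subgroup H) (h : ∀ a ∈ N, ∀ b ∈ N, a * b = b * a) :
    CommGroup N :=
  { (inferInstance : Group N) with mul_comm := fun a b => Subtype.ext (h a a.2 b b.2) }

section

variable {H : Type*} [Group H] (x c : H)
  (hc : ∀ k l : ℤ, (x ^ k * c * x ^ (-k)) * (x ^ l * c * x ^ (-l)) =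
    (x ^ l * c * x ^ (-l)) * (x ^ k * c * x ^ (-k)))

/-- the subgroup generated by the conjugates of `c` by powers of `x` -/
def conjSub : Subgroup H := Subgroup.closure (Set.range (fun k : ℤ => x ^ k * c * x ^ (-k)))

include hc in
theorem conjSub_comm : ∀ a ∈ conjSub x c, ∀ b ∈ conjSub x c, a * b = b * a := by
  have h := Subgroup.isMulCommutative_closure
    (k := Set.range (fun k : ℤ => x ^ k * c * x ^ (-k))) (by
      rintro _ ⟨k, rfl⟩ _ ⟨l, rfl⟩
      exact hc k l)
  intro a ha b hb
  have := h.is_comm.comm ⟨a, ha⟩ ⟨b, hb⟩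
  exact congrArg Subtype.val this

/-- the additive version of the exponent map -/
noncomputable def expA : MonoidAlgebra ℤ (Multiplicative ℤ) →+
    @Additive (conjSub x c) :=
  letI := cg (conjSub x c) (conjSub_comm x c hc)
  (Finsupp.liftAddHom (fun k : Multiplicative ℤ => zmultiplesHom (Additive (conjSub x c))
    (Additive.ofMul (⟨x ^ (k.toAdd) * c * x ^ (-k.toAdd),
      Subgroup.subset_closure (Set.mem_range_self _)⟩ : conjSub x c)))).comp
    MonoidAlgebra.coeffAddEquiv.toAddMonoidHom

/-- `c ^ r(x)` for `r ∈ ℤ[ℤ]` -/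
noncomputable def expF (r : MonoidAlgebra ℤ (Multiplicative ℤ)) : H :=
  ((Additive.toMul (expA x c hc r) : conjSub x c) : H)

@[simp] theorem expF_zero : expF x c hc 0 = 1 := by
  unfold expF
  rw [map_zero]
  rfl

theorem expF_add (r s : MonoidAlgebra ℤ (Multiplicative ℤ)) :
    expF x c hc (r + s) = expF x c hc r * expF x c hc s := by
  unfold expF
  rw [map_add]
  rfl

theorem expF_mem (r : MonoidAlgebra ℤ (Multiplicative ℤ)) : expF x c hc r ∈ conjSub x c :=
  (Additive.toMul (expA x c hc r) : conjSub x c).2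

theorem expF_single (k : Multiplicative ℤ) (n : ℤ) :
    expF x c hc (MonoidAlgebra.single k n) = (x ^ (k.toAdd) * c * x ^ (-k.toAdd)) ^ n := by
  unfold expF expA
  simp only [AddMonoidHom.comp_apply]
  let _ := cg (conjSub x c) (conjSub_comm x c hc)
  have h1 : (MonoidAlgebra.coeffAddEquiv.toAddMonoidHom
      (MonoidAlgebra.single k n : MonoidAlgebra ℤ (Multiplicative ℤ))) = Finsupp.single k n := by
    simp
  rw [h1, Finsupp.liftAddHom_apply_single]
  simp only [zmultiplesHom_apply]
  rfl

/-- conjugation by `x ^ m` corresponds to multiplication by `single m` -/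
theorem expF_conj (m : ℤ) (s : MonoidAlgebra ℤ (Multiplicative ℤ)) :
    x ^ m * expF x c hc s * x ^ (-m) =
      expF x c hc (MonoidAlgebra.single (Multiplicative.ofAdd m) 1 * s) := by
  induction s using MonoidAlgebra.induction_linear with
  | zero => simp
  | add a b ha hb =>
    rw [mul_add, expF_add, expF_add, ← ha, ← hb]
    group
  | single k n =>
    rw [MonoidAlgebra.single_mul_single, expF_single, expF_single, one_mul]
    rw [toAdd_mul, toAdd_ofAdd]
    have : x ^ (m + k.toAdd) * c * x ^ (-(m + k.toAdd)) =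
        x ^ m * (x ^ (k.toAdd) * c * x ^ (-k.toAdd)) * (x ^ m)⁻¹ := by
      group
    rw [this, conj_zpow]
    simp only [zpow_neg]

/-- the homomorphism `Z wr Z → H` determined by `c` and `x` -/
noncomputable def wreathHom : WZ →* H where
  toFun w := expF x c hc w.fst * x ^ w.snd
  map_one' := by simp
  map_mul' v w := by
    simp only [SD.mul_fst, SD.mul_snd, SD.act, ofU_coe]
    rw [expF_add, ← expF_conj]
    rw [zpow_add]
    group

theorem wreathHom_apply (w : WZ) : wreathHom x c hc w = expF x c hc w.fst * x ^ w.snd := rfl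

end

/-- the free metabelian group of rank two -/
abbrev FM : Type := FreeGroup (Fin 2) ⧸ derivedSeries (FreeGroup (Fin 2)) 2

theorem FM_derived : derivedSeries FM 2 = ⊥ := by
  have h := map_derivedSeries_eq (f := QuotientGroup.mk' (derivedSeries (FreeGroup (Fin 2)) 2))
    (QuotientGroup.mk'_surjective _) 2
  rw [← h]
  rw [Subgroup.map_eq_bot_iff]
  rw [QuotientGroup.ker_mk']

theorem derived_comm {Q : Type*} [Group Q] (hQ : derivedSeries Q 2 = ⊥) :
    ∀ a ∈ derivedSeries Q 1, ∀ b ∈ derivedSeries Q 1, a * b = b * a := by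
  intro a ha b hb
  have h : ⁅a, b⁆ ∈ derivedSeries Q 2 := by
    rw [derivedSeries_succ]
    exact Subgroup.commutator_mem_commutator ha hb
  rw [hQ, Subgroup.mem_bot, commutatorElement_eq_one_iff_mul_comm] at h
  exact h

theorem derived_le_of_abelian_quot {Q : Type*} [Group Q] {A : Type*} [CommGroup A] (g : Q →* A) :
    derivedSeries Q 1 ≤ g.ker := by
  rw [derivedSeries_one]
  exact Abelianization.commutator_subset_ker g

/-- `R ⋊ B` is metabelian -/
theorem SD.derived {R B : Type*} [CommRing R] [AddCommGroup B] (ω : Multiplicative B →* Rˣ) :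
    derivedSeries (SD R B ω) 2 = ⊥ := by
  rw [eq_bot_iff, derivedSeries_succ, Subgroup.commutator_le]
  intro a ha b hb
  have ha' : a.snd = 0 := derived_le_of_abelian_quot (SD.topHom (ω := ω)) ha
  have hb' : b.snd = 0 := derived_le_of_abelian_quot (SD.topHom (ω := ω)) hb
  rw [Subgroup.mem_bot, commutatorElement_eq_one_iff_mul_comm]
  ext
  · simp [ha', hb', add_comm]
  · simp [ha', hb']

noncomputable def fmX : FM := QuotientGroup.mk' _ (FreeGroup.of 0)
noncomputable def fmY : FM := QuotientGroup.mk' _ (FreeGroup.of 1)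
noncomputable def fmC : FM := ⁅fmX, fmY⁆

theorem fmC_mem : fmC ∈ derivedSeries FM 1 := by
  rw [derivedSeries_one]
  exact Subgroup.commutator_mem_commutator (Subgroup.mem_top _) (Subgroup.mem_top _)

theorem fm_comm (k l : ℤ) : (fmX ^ k * fmC * fmX ^ (-k)) * (fmX ^ l * fmC * fmX ^ (-l)) =
    (fmX ^ l * fmC * fmX ^ (-l)) * (fmX ^ k * fmC * fmX ^ (-k)) := by
  apply derived_comm FM_derived
  · rw [zpow_neg]
    exact (derivedSeries_normal FM 1).conj_mem _ fmC_mem _
  · rw [zpow_neg]
    exact (derivedSeries_normal FM 1).conj_mem _ fmC_mem _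

/-- the homomorphism `F₂ → Z wr Z` -/
noncomputable def toWZ₀ : FreeGroup (Fin 2) →* WZ :=
  FreeGroup.lift ![⟨0, 1⟩, ⟨1, 0⟩]

noncomputable def toWZ : FM →* WZ :=
  QuotientGroup.lift _ toWZ₀ (by
    intro g hg
    have h1 : toWZ₀ g ∈ derivedSeries WZ 2 :=
      map_derivedSeries_le_derivedSeries toWZ₀ 2 (Subgroup.mem_map_of_mem _ hg)
    rw [SD.derived] at h1
    exact h1)

theorem toWZ_x : toWZ fmX = ⟨0, 1⟩ := by
  change toWZ₀ (FreeGroup.of 0) = _
  simp [toWZ₀]

theorem toWZ_y : toWZ fmY = ⟨1, 0⟩ := by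
  change toWZ₀ (FreeGroup.of 1) = _
  simp [toWZ₀]

noncomputable def dl : MonoidAlgebra ℤ (Multiplicative ℤ) :=
  MonoidAlgebra.single (Multiplicative.ofAdd 1) 1 - 1

theorem dl_ne : dl ≠ 0 := by
  intro h
  have h1 : (MonoidAlgebra.single (Multiplicative.ofAdd (1 : ℤ)) (1 : ℤ)) =
      (MonoidAlgebra.single (1 : Multiplicative ℤ) (1 : ℤ)) := sub_eq_zero.1 h
  have h2 := congrArg (fun z : MonoidAlgebra ℤ (Multiplicative ℤ) =>
    z.coeff (Multiplicative.ofAdd (1 : ℤ))) h1
  simp only [MonoidAlgebra.coeff_single, Finsupp.single_apply] at h2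
  have h3 : (1 : Multiplicative ℤ) ≠ Multiplicative.ofAdd 1 := by decide
  simp [h3] at h2

theorem toWZ_c : toWZ fmC = ⟨dl, 0⟩ := by
  rw [fmC, map_commutatorElement, toWZ_x, toWZ_y, commutatorElement_def]
  ext1
  · simp [dl, SD.act, ofU_coe, ofAdd_neg]
    abel
  · simp

theorem WZ_zpow (m : ℤ) : (⟨0, 1⟩ : WZ) ^ m = ⟨0, m⟩ := by
  have h := map_zpow (SD.inTop (ofU (Multiplicative ℤ))) (Multiplicative.ofAdd 1) m
  have h2 : (SD.inTop (ofU (Multiplicative ℤ))) (Multiplicative.ofAdd 1) = (⟨0, 1⟩ : WZ) := rfl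
  rw [h2] at h
  rw [← h, ← ofAdd_zsmul]
  simp [SD.inTop]

theorem toWZ_expF (r : MonoidAlgebra ℤ (Multiplicative ℤ)) :
    toWZ (expF fmX fmC fm_comm r) = ⟨dl * r, 0⟩ := by
  induction r using MonoidAlgebra.induction_linear with
  | zero =>
    rw [expF_zero, map_one, mul_zero]
    rfl
  | add a b ha hb =>
    rw [expF_add, map_mul, ha, hb, mul_add]
    ext1
    · simp
    · simp
  | single k n =>
    rw [expF_single, map_zpow, map_mul, map_mul, map_zpow, map_zpow, toWZ_x, toWZ_c, WZ_zpow,
      WZ_zpow]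
    have h1 : ((⟨0, k.toAdd⟩ : WZ) * ⟨dl, 0⟩ * ⟨0, -k.toAdd⟩) =
        ⟨dl * MonoidAlgebra.single k 1, 0⟩ := by
      ext1
      · simp [SD.act, ofU_coe, mul_comm]
      · simp
    rw [h1]
    have h2 : ∀ (s : MonoidAlgebra ℤ (Multiplicative ℤ)) (m : ℤ), (⟨s, 0⟩ : WZ) ^ m =
        ⟨m • s, 0⟩ := by
      intro s m
      let g : Multiplicative (MonoidAlgebra ℤ (Multiplicative ℤ)) →* WZ :=
        { toFun := fun s => ⟨s.toAdd, 0⟩
          map_one' := rfl
          map_mul' := by
            intro a b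
            ext1
            · simp
            · simp }
      have h3 := map_zpow g (Multiplicative.ofAdd s) m
      rw [← ofAdd_zsmul] at h3
      exact h3.symm
    rw [h2]
    congr 1
    rw [← mul_smul_comm]
    congr 1
    simp

theorem wreathHom_FM_injective : Function.Injective (wreathHom fmX fmC fm_comm) := by
  have h1 : ∀ w : WZ, toWZ (wreathHom fmX fmC fm_comm w) = ⟨dl * w.fst, w.snd⟩ := by
    intro w
    rw [wreathHom_apply, map_mul, toWZ_expF, map_zpow, toWZ_x, WZ_zpow]
    ext1
    · simp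
    · simp
  intro v w hvw
  have h2 := h1 v
  rw [hvw, h1 w] at h2
  have h3 : dl * w.fst = dl * v.fst := by
    have := congrArg SD.fst h2
    exact this
  have h4 : w.snd = v.snd := by
    have := congrArg SD.snd h2
    exact this
  ext1
  · exact (mul_left_cancel₀ dl_ne h3).symm
  · exact h4.symm

theorem sat_WZ {q : QId} (h : Sat FM q) : Sat WZ q :=
  Sat.of_injective _ wreathHom_FM_injective h

theorem sat_Z {q : QId} (h : Sat FM q) : Sat (Multiplicative ℤ) q := by
  apply Sat.of_injective (SD.inTop (ofU (Multiplicative ℤ))) _ (sat_WZ h)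
  intro a b hab
  exact congrArg SD.snd hab

end Pool.Agent.Helper111.QI
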