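import Mathlib
import Pool.Agent.Helper111.QI.Wreath
import Pool.Agent.Helper111.QI.Cyc

set_option autoImplicit false

namespace Pool.Agent.Helper111.QI

open Filter

/-- the group `ℂ ⋊ ℤ`, with `1 ∈ ℤ` acting as multiplication by `ζ` -/
abbrev XX (ζ : ℂˣ) : Type := SD ℂ ℤ (zpowersHom ℂˣ ζ)

theorem XX_act (ζ : ℂˣ) (b : ℤ) : SD.act (zpowersHom ℂˣ ζ) b = (ζ : ℂ) ^ b := by
  simp [SD.act]

section

variable (φ : Ultrafilter ℕ) (ζ : ℕ → ℂˣ)

/-- the values of the multipliers -/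
noncomputable def gval (a : Germ (φ : Filter ℕ) ℤ) : Germ (φ : Filter ℕ) ℂ :=
  Germ.map₂ (fun (z : ℂˣ) (a : ℤ) => ((z : ℂ)) ^ a) (ζ : Germ (φ : Filter ℕ) ℂˣ) a

theorem gval_coe (a : ℕ → ℤ) :
    gval φ ζ (a : Germ (φ : Filter ℕ) ℤ) =
      ((fun i => ((ζ i : ℂ)) ^ (a i) : ℕ → ℂ) : Germ (φ : Filter ℕ) ℂ) := rfl

theorem gval_zero : gval φ ζ 0 = 1 := by
  change gval φ ζ ((0 : ℕ → ℤ) : Germ (φ : Filter ℕ) ℤ) = _
  rw [gval_coe]
  simp only [Pi.zero_apply, zpow_zero]
  rfl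

theorem gval_add (a b : Germ (φ : Filter ℕ) ℤ) :
    gval φ ζ (a + b) = gval φ ζ a * gval φ ζ b := by
  induction a using Germ.inductionOn with
  | _ a =>
  induction b using Germ.inductionOn with
  | _ b =>
  rw [← Germ.coe_add, gval_coe, gval_coe, gval_coe, ← Germ.coe_mul]
  congr 1
  funext i
  simp [zpow_add₀]

/-- the homomorphism giving the action of `*ℤ` on `*ℂ` -/
noncomputable def gω : Multiplicative (Germ (φ : Filter ℕ) ℤ) →* (Germ (φ : Filter ℕ) ℂ)ˣ where
  toFun a := ⟨gval φ ζ a.toAdd, gval φ ζ (-a.toAdd),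
    by rw [← gval_add, add_neg_cancel, gval_zero],
    by rw [← gval_add, neg_add_cancel, gval_zero]⟩
  map_one' := by
    apply Units.ext
    exact gval_zero φ ζ
  map_mul' a b := by
    apply Units.ext
    exact gval_add φ ζ _ _

theorem gω_act (a : Germ (φ : Filter ℕ) ℤ) : SD.act (gω φ ζ) a = gval φ ζ a := rfl

/-- the homomorphism from the product of the groups `XX (ζ i)` to the ultraproduct -/
noncomputable def gHom : (∀ i, XX (ζ i)) →* SD (Germ (φ : Filter ℕ) ℂ) (Germ (φ : Filter ℕ) ℤ)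
    (gω φ ζ) where
  toFun x := ⟨((fun i => (x i).fst : ℕ → ℂ) : Germ (φ : Filter ℕ) ℂ),
    ((fun i => (x i).snd : ℕ → ℤ) : Germ (φ : Filter ℕ) ℤ)⟩
  map_one' := rfl
  map_mul' x y := by
    apply SD.ext
    · simp only [SD.mul_fst, gω_act, gval_coe]
      rw [← Germ.coe_mul, ← Germ.coe_add]
      congr 1
      funext i
      simp [XX_act]
    · rfl

instance germ_torsionFree : Module.IsTorsionFree ℤ (Germ (φ : Filter ℕ) ℤ) := by
  apply Module.IsTorsionFree.of_smul_eq_zero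
  intro r m
  induction m using Germ.inductionOn with
  | _ m =>
  intro h
  by_cases hr : r = 0
  · exact Or.inl hr
  · right
    rw [← Germ.coe_smul, ← Germ.coe_zero] at h
    rw [← Germ.coe_zero]
    rw [Germ.coe_eq] at h ⊢
    filter_upwards [h] with i hi
    simpa [hr] using hi

theorem gω_li (p j : ℕ → ℕ) (hp : ∀ i, (p i).Prime) (hmono : StrictMono p)
    (hφ : (φ : Filter ℕ) ≤ atTop)
    (hζ : ∀ i, IsPrimitiveRoot (ζ i : ℂ) (p i ^ (j i + 1))) :
    LinearIndependent ℤ (fun c : (gω φ ζ).range => ((c : (Germ (φ : Filter ℕ) ℂ)ˣ) :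
      Germ (φ : Filter ℕ) ℂ)) := by
  classical
  rw [linearIndependent_iff]
  intro l hl
  have hrep : ∀ c : (gω φ ζ).range, ∃ a : ℕ → ℤ,
      ((c : (Germ (φ : Filter ℕ) ℂ)ˣ) : Germ (φ : Filter ℕ) ℂ) =
        ((fun i => ((ζ i : ℂ)) ^ (a i) : ℕ → ℂ) : Germ (φ : Filter ℕ) ℂ) := by
    rintro ⟨c, x, rfl⟩
    obtain ⟨a, ha⟩ := Quot.exists_rep x.toAdd
    refine ⟨a, ?_⟩
    rw [← gval_coe]
    change gval φ ζ x.toAdd = _
    rw [← ha]
    rfl
  choose a ha using hrep
  have h1 : ∀ᶠ i in (φ : Filter ℕ), ∑ c ∈ l.support, (l c : ℂ) * (ζ i : ℂ) ^ (a c i) = 0 := by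
    rw [Finsupp.linearCombination_apply, Finsupp.sum] at hl
    have h2 : (∑ c ∈ l.support, l c • ((c : (Germ (φ : Filter ℕ) ℂ)ˣ) :
        Germ (φ : Filter ℕ) ℂ)) =
        ((fun i => ∑ c ∈ l.support, (l c : ℂ) * (ζ i : ℂ) ^ (a c i) : ℕ → ℂ) :
          Germ (φ : Filter ℕ) ℂ) := by
      have h3 : ∀ s : Finset (gω φ ζ).range,
          (∑ c ∈ s, l c • ((c : (Germ (φ : Filter ℕ) ℂ)ˣ) : Germ (φ : Filter ℕ) ℂ)) =
          ((fun i => ∑ c ∈ s, (l c : ℂ) * (ζ i : ℂ) ^ (a c i) : ℕ → ℂ) :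
            Germ (φ : Filter ℕ) ℂ) := by
        intro s
        induction s using Finset.induction_on with
        | empty => simp; rfl
        | insert c s hc ih =>
          rw [Finset.sum_insert hc, ih, ha c, ← Germ.coe_smul, ← Germ.coe_add]
          congr 1
          funext i
          simp [Finset.sum_insert hc]
      exact h3 _
    rw [h2, ← Germ.coe_zero, Germ.coe_eq] at hl
    exact hl
  have h2 : ∀ᶠ i in (φ : Filter ℕ), ∀ c ∈ l.support, ∀ d ∈ l.support,
      (ζ i : ℂ) ^ (a c i) = (ζ i : ℂ) ^ (a d i) → c = d := by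
    rw [Filter.eventually_all_finset]
    intro c _
    rw [Filter.eventually_all_finset]
    intro d _
    by_cases hcd : c = d
    · exact Eventually.of_forall (fun i _ => hcd)
    · have h3 : ¬ ∀ᶠ i in (φ : Filter ℕ), (ζ i : ℂ) ^ (a c i) = (ζ i : ℂ) ^ (a d i) := by
        intro h
        apply hcd
        apply Subtype.ext
        apply Units.ext
        rw [ha c, ha d]
        exact Germ.coe_eq.2 h
      have h4 := Ultrafilter.eventually_not.2 h3
      filter_upwards [h4] with i hi h5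
      exact absurd h5 hi
  have h3 : ∀ᶠ i in (φ : Filter ℕ), l.support.card < p i := by
    apply hφ
    filter_upwards [Filter.eventually_gt_atTop l.support.card] with i hi
    exact lt_of_lt_of_le hi (hmono.le_apply)
  obtain ⟨i, hi1, hi2, hi3⟩ := (h1.and (h2.and h3)).exists
  have h5 := vanish (p i) (j i) (hp i) (ζ i : ℂ) (hζ i) l.support (fun c => a c i) l hi2 hi3 hi1
  ext c
  by_contra hc
  exact hc (h5 c (Finsupp.mem_support_iff.2 hc))

end

/-- **Transfer.** A quasi-identity of the free metabelian group of rank two holds in one of the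
groups `XX (ζ i)`, if `ζ i` is a primitive root of unity of order `p i ^ (j i + 1)` where
`p 0 < p 1 < …` are primes. -/
theorem exists_sat (p j : ℕ → ℕ) (hp : ∀ i, (p i).Prime) (hmono : StrictMono p) (ζ : ℕ → ℂˣ)
    (hζ : ∀ i, IsPrimitiveRoot (ζ i : ℂ) (p i ^ (j i + 1))) {q : QId} (hq : Sat FM q) :
    ∃ i, Sat (XX (ζ i)) q := by
  classical
  by_contra hcon
  push Not at hcon
  have hfail : ∀ i, ∃ f : Fin q.1 → XX (ζ i), (∀ r ∈ q.2.1, FreeGroup.lift f r = 1) ∧
      FreeGroup.lift f q.2.2 ≠ 1 := by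
    intro i
    have h1 := hcon i
    unfold Sat at h1
    push Not at h1
    exact h1
  choose f hf hu using hfail
  set φ : Ultrafilter ℕ := hyperfilter ℕ with hφ
  have hφle : (φ : Filter ℕ) ≤ atTop := Nat.hyperfilter_le_atTop
  have hli := gω_li φ ζ p j hp hmono hφle hζ
  have hS := key (gω φ ζ) hli (sat_Z hq) (sat_WZ hq)
  let F : Fin q.1 → (∀ i, XX (ζ i)) := fun k i => f i k
  have hFi : ∀ (w : FreeGroup (Fin q.1)) (i : ℕ), FreeGroup.lift F w i = FreeGroup.lift (f i) w := by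
    intro w i
    exact (lift_hom (Pi.evalMonoidHom (fun i => XX (ζ i)) i) F w).symm
  have h1 := hS (fun k => gHom φ ζ (F k)) (by
    intro r hr
    rw [lift_hom]
    have : FreeGroup.lift F r = 1 := by
      funext i
      rw [hFi]
      exact hf i r hr
    rw [this, map_one])
  rw [lift_hom] at h1
  have h2 : ∀ᶠ i in (φ : Filter ℕ), (FreeGroup.lift F q.2.2 i).fst = 0 := by
    have h3 := congrArg SD.fst h1
    exact Germ.coe_eq.1 h3
  have h3 : ∀ᶠ i in (φ : Filter ℕ), (FreeGroup.lift F q.2.2 i).snd = 0 := by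
    have h3 := congrArg SD.snd h1
    exact Germ.coe_eq.1 h3
  obtain ⟨i, hi1, hi2⟩ := (h2.and h3).exists
  apply hu i
  rw [← hFi]
  apply SD.ext
  · exact hi1
  · exact hi2

end Pool.Agent.Helper111.QI
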