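import Mathlib
import Pool.Agent.Helper111.QI.Germs

set_option autoImplicit false

namespace Pool.Agent.Helper111.QI

open scoped commutatorElement

/-- the product `z · z^y · z^(y²) ⋯ z^(y^(p-1))`, where `z^y = y⁻¹ z y` -/
def nrm {H : Type*} [Group H] (p : ℕ) (z y : H) : H :=
  ((List.range p).map (fun l => (y ^ l)⁻¹ * z * y ^ l)).prod

theorem nrm_succ {H : Type*} [Group H] (p : ℕ) (z y : H) :
    nrm (p + 1) z y = nrm p z y * ((y ^ p)⁻¹ * z * y ^ p) := by
  simp [nrm, List.range_succ]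

theorem nrm_zero {H : Type*} [Group H] (z y : H) : nrm 0 z y = 1 := rfl

theorem map_nrm {H K : Type*} [Group H] [Group K] (g : H →* K) (p : ℕ) (z y : H) :
    g (nrm p z y) = nrm p (g z) (g y) := by
  induction p with
  | zero => simp [nrm_zero]
  | succ p ih => simp [nrm_succ, ih]

theorem nrm_one {H : Type*} [Group H] (p : ℕ) (y : H) : nrm p 1 y = 1 := by
  induction p with
  | zero => rfl
  | succ p ih => simp [nrm_succ, ih]

/-- the commutator word `[z^(x^a), z^(x^b)]` -/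
def cmm {H : Type*} [Group H] (z x : H) (a b : ℕ) : H :=
  ⁅(x ^ a)⁻¹ * z * x ^ a, (x ^ b)⁻¹ * z * x ^ b⁆

theorem map_cmm {H K : Type*} [Group H] [Group K] (g : H →* K) (z x : H) (a b : ℕ) :
    g (cmm z x a b) = cmm (g z) (g x) a b := by
  simp [cmm, map_commutatorElement]

/-- the premises of the quasi-identity `E p j` -/
def EA (p j : ℕ) : List (FreeGroup (Fin 2)) :=
  nrm p (FreeGroup.of 0) (FreeGroup.of 1 ^ (p ^ j)) ::
    (List.range (p ^ (j + 1))).flatMap (fun a => (List.range (p ^ (j + 1))).map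
      (fun b => cmm (FreeGroup.of 0) (FreeGroup.of 1) a b))

/-- The quasi-identity `E p j`: if the conjugates of `z` by powers of `x` commute and
`z^(Φ(x)) = 1` with `Φ` the cyclotomic polynomial of order `p^(j+1)`, then `z = 1`. -/
def E (p j : ℕ) : QId := ⟨2, (EA p j, FreeGroup.of 0)⟩

/-- the meaning of `E p j` -/
def EProp (p j : ℕ) (H : Type*) [Group H] : Prop :=
  ∀ z x : H, (∀ a < p ^ (j + 1), ∀ b < p ^ (j + 1), cmm z x a b = 1) →
    nrm p z (x ^ (p ^ j)) = 1 → z = 1

theorem mem_EA (p j : ℕ) (w : FreeGroup (Fin 2)) : w ∈ EA p j ↔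
    (w = nrm p (FreeGroup.of 0) (FreeGroup.of 1 ^ (p ^ j)) ∨
      ∃ a < p ^ (j + 1), ∃ b < p ^ (j + 1), cmm (FreeGroup.of 0) (FreeGroup.of 1) a b = w) := by
  simp only [EA, List.mem_cons, List.mem_flatMap, List.mem_map, List.mem_range]

theorem satP_E_iff (p j : ℕ) (H : Type*) [Group H] :
    SatP H (EA p j) (FreeGroup.of 0) ↔ EProp p j H := by
  constructor
  · intro h z x hc hn
    have h2 := h (fun i : Fin 2 => if i = 0 then z else x) (by
      intro w hw
      rw [mem_EA] at hw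
      rcases hw with rfl | ⟨a, ha, b, hb, rfl⟩
      · rw [map_nrm, map_pow, FreeGroup.lift_apply_of, FreeGroup.lift_apply_of]
        simpa using hn
      · rw [map_cmm, FreeGroup.lift_apply_of, FreeGroup.lift_apply_of]
        simpa using hc a ha b hb)
    rw [FreeGroup.lift_apply_of] at h2
    simpa using h2
  · intro h f hf
    have h1 := h (f 0) (f 1) (by
      intro a ha b hb
      have := hf (cmm (FreeGroup.of 0) (FreeGroup.of 1) a b) (by
        rw [mem_EA]
        exact Or.inr ⟨a, ha, b, hb, rfl⟩)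
      rw [map_cmm, FreeGroup.lift_apply_of, FreeGroup.lift_apply_of] at this
      exact this) (by
      have := hf (nrm p (FreeGroup.of 0) (FreeGroup.of 1 ^ (p ^ j))) (by
        rw [mem_EA]
        exact Or.inl rfl)
      rw [map_nrm, map_pow, FreeGroup.lift_apply_of, FreeGroup.lift_apply_of] at this
      exact this)
    rw [FreeGroup.lift_apply_of]
    exact h1

theorem sat_E_iff (p j : ℕ) (H : Type*) [Group H] : Sat H (E p j) ↔ EProp p j H :=
  satP_E_iff p j H

section SDfacts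

variable {R B : Type*} [CommRing R] [AddCommGroup B] {ω : Multiplicative B →* Rˣ}

theorem SD.conj_bot (z y : SD R B ω) (hz : z.snd = 0) :
    y⁻¹ * z * y = ⟨SD.act ω (-y.snd) * z.fst, 0⟩ := by
  ext
  · simp [hz]
  · simp [hz]

theorem SD.pow_snd (y : SD R B ω) (l : ℕ) : (y ^ l).snd = l • y.snd := by
  induction l with
  | zero => simp
  | succ l ih => rw [pow_succ, SD.mul_snd, ih, succ_nsmul]

theorem SD.nrm_bot (p : ℕ) (z y : SD R B ω) (hz : z.snd = 0) :
    nrm p z y = ⟨(∑ l ∈ Finset.range p, SD.act ω (-(l • y.snd))) * z.fst, 0⟩ := by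
  induction p with
  | zero =>
    rw [nrm_zero]
    ext
    · simp
    · simp
  | succ p ih =>
    rw [nrm_succ, ih, SD.conj_bot z _ hz, SD.pow_snd, Finset.sum_range_succ]
    ext
    · simp only [SD.mul_fst, SD.act_zero]
      ring
    · simp

theorem SD.nrm_snd (p : ℕ) (z y : SD R B ω) : (nrm p z y).snd = p • z.snd := by
  induction p with
  | zero => simp [nrm_zero]
  | succ p ih =>
    rw [nrm_succ, SD.mul_snd, ih]
    simp only [SD.mul_snd, SD.inv_snd, SD.pow_snd]
    rw [succ_nsmul]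
    abel

theorem SD.cmm_bot (z x : SD R B ω) (hz : z.snd = 0) (a b : ℕ) : cmm z x a b = 1 := by
  unfold cmm
  rw [commutatorElement_eq_one_iff_mul_comm, SD.conj_bot z _ hz, SD.conj_bot z _ hz]
  ext
  · simp [add_comm]
  · simp

end SDfacts

theorem XX_act' (ζ : ℂˣ) (b : ℤ) (l : ℕ) :
    SD.act (zpowersHom ℂˣ ζ) (-(l • b)) = ((ζ : ℂ) ^ (-b)) ^ l := by
  rw [XX_act, ← zpow_natCast, ← zpow_mul]
  congr 1
  simp [mul_comm]

theorem XX_nrm (ζ : ℂˣ) (p : ℕ) (z y : XX ζ) (hz : z.snd = 0) :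
    nrm p z y = ⟨(∑ l ∈ Finset.range p, ((ζ : ℂ) ^ (-y.snd)) ^ l) * z.fst, 0⟩ := by
  rw [SD.nrm_bot p z y hz]
  simp only [XX_act']

/-- `XX ζ` is torsion-free -/
theorem XX_TF (ζ : ℂˣ) : TF (XX ζ) := by
  intro h hh k hk hk1
  apply hh
  have h1 : (h ^ k).snd = 0 := by rw [hk1]; rfl
  rw [SD.pow_snd] at h1
  have h2 : h.snd = 0 := by
    rcases smul_eq_zero.1 h1 with h3 | h3
    · omega
    · exact h3
  have h3 : ∀ m : ℕ, h ^ m = ⟨(m : ℂ) * h.fst, 0⟩ := by
    intro m
    induction m with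
    | zero =>
      rw [pow_zero]
      ext
      · simp
      · simp
    | succ m ih =>
      rw [pow_succ, ih]
      ext
      · simp only [SD.mul_fst, SD.act_zero]
        push_cast
        ring
      · simp [h2]
  have h4 : (k : ℂ) * h.fst = 0 := by
    have := h3 k
    rw [hk1] at this
    exact (congrArg SD.fst this).symm
  ext
  · rcases mul_eq_zero.1 h4 with h5 | h5
    · exfalso
      have : k = 0 := by exact_mod_cast h5
      omega
    · exact h5
  · exact h2

/-- `E p j` fails in `XX ζ`, if `ζ` is a primitive root of unity of order `p^(j+1)` -/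
theorem not_E (p j : ℕ) (hp : p.Prime) (ζ : ℂˣ) (hζ : IsPrimitiveRoot (ζ : ℂ) (p ^ (j + 1))) :
    ¬ Sat (XX ζ) (E p j) := by
  rw [sat_E_iff]
  intro h
  have h1 := h ⟨1, 0⟩ ⟨0, 1⟩ (fun a _ b _ => SD.cmm_bot _ _ rfl a b) (by
    rw [XX_nrm _ _ _ _ rfl, SD.pow_snd]
    have h2 : (ζ : ℂ) ^ (-((p ^ j) • (1 : ℤ))) = ((ζ : ℂ) ^ (p ^ j))⁻¹ := by
      rw [zpow_neg]
      congr 1
      rw [nsmul_one, zpow_natCast]
    have h3 : IsPrimitiveRoot ((ζ : ℂ) ^ (p ^ j)) p :=
      hζ.pow (pow_pos hp.pos _) (pow_succ _ _)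
    have h4 := h3.inv.geom_sum_eq_zero hp.one_lt
    rw [h2, h4]
    ext
    · simp
    · simp)
  have h2 : (1 : ℂ) = 0 := congrArg SD.fst h1
  exact one_ne_zero h2

/-- `E p j` holds in `XX ζ`, if `ζ` is a root of unity of order a power of another prime -/
theorem sat_E_of_ne (p p' j m : ℕ) (hp : p.Prime) (hp' : p'.Prime) (hne : p ≠ p') (ζ : ℂˣ)
    (hζ : (ζ : ℂ) ^ (p' ^ m) = 1) : Sat (XX ζ) (E p j) := by
  rw [sat_E_iff]
  intro z x _ hn
  have h1 : z.snd = 0 := by
    have h2 := congrArg SD.snd hn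
    rw [SD.nrm_snd] at h2
    rcases smul_eq_zero.1 h2 with h3 | h3
    · exact absurd h3 hp.ne_zero
    · exact h3
  rw [XX_nrm _ _ _ _ h1] at hn
  have h2 := congrArg SD.fst hn
  simp only [SD.one_fst] at h2
  rcases mul_eq_zero.1 h2 with h3 | h3
  · exfalso
    set w : ℂ := (ζ : ℂ) ^ (-(x ^ (p ^ j)).snd) with hw
    have hw1 : w ^ (p' ^ m) = 1 := by
      rw [hw, ← zpow_natCast, ← zpow_mul, mul_comm, zpow_mul, zpow_natCast, hζ, one_zpow]
    by_cases hw2 : w = 1
    · rw [hw2] at h3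
      simp only [one_pow, Finset.sum_const, Finset.card_range, nsmul_eq_mul, mul_one] at h3
      exact hp.ne_zero (by exact_mod_cast h3)
    · have h4 : w ^ p = 1 := by
        have h5 := geom_sum_mul w p
        rw [h3, zero_mul] at h5
        exact (sub_eq_zero.1 h5.symm)
      apply hw2
      have h6 : orderOf w ∣ p := orderOf_dvd_of_pow_eq_one h4
      have h7 : orderOf w ∣ p' ^ m := orderOf_dvd_of_pow_eq_one hw1
      have h8 : Nat.Coprime p (p' ^ m) :=
        Nat.Coprime.pow_right _ ((Nat.coprime_primes hp hp').2 hne)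
      have h9 : orderOf w = 1 := Nat.dvd_one.1 (h8 ▸ Nat.dvd_gcd h6 h7)
      exact orderOf_eq_one_iff.1 h9
  · ext
    · exact h3
    · exact h1

end Pool.Agent.Helper111.QI
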