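import Mathlib
import Pool.Agent.Helper111.QI.EE

set_option autoImplicit false

namespace Pool.Agent.Helper111.QI

/-- the finitely many quasi-identities used to derive `A → u = 1` from the `E p j` -/
def cond {n : ℕ} (A : List (FreeGroup (Fin n))) :
    List (Fin n × ℕ × ℕ) → FreeGroup (Fin n) → List (FreeGroup (Fin n))
  | [], u => [u]
  | t :: L, u =>
    ((List.range (t.2.1 ^ (t.2.2 + 1))).flatMap (fun a => (List.range (t.2.1 ^ (t.2.2 + 1))).map
      (fun b => cmm u (FreeGroup.of t.1) a b))) ++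
    cond A L (nrm t.2.1 u (FreeGroup.of t.1 ^ (t.2.1 ^ t.2.2)))

/-- Claim 1: the conditions together with the `E p j` imply the quasi-identity. -/
theorem claim1 {H : Type*} [Group H] {n : ℕ} (A : List (FreeGroup (Fin n)))
    (L : List (Fin n × ℕ × ℕ)) (hE : ∀ t ∈ L, EProp t.2.1 t.2.2 H) (u : FreeGroup (Fin n))
    (hc : ∀ w ∈ cond A L u, SatP H A w) : SatP H A u := by
  induction L generalizing u with
  | nil => exact hc u (by simp [cond])
  | cons t L ih =>
    have h1 := ih (fun s hs => hE s (List.mem_cons_of_mem _ hs))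
      (nrm t.2.1 u (FreeGroup.of t.1 ^ (t.2.1 ^ t.2.2))) (by
        intro w hw
        apply hc
        simp only [cond, List.mem_append]
        exact Or.inr hw)
    intro f hf
    apply hE t (List.mem_cons_self) (FreeGroup.lift f u) (f t.1)
    · intro a ha b hb
      have h2 := hc (cmm u (FreeGroup.of t.1) a b) (by
        simp only [cond, List.mem_append, List.mem_flatMap, List.mem_map, List.mem_range]
        exact Or.inl ⟨a, ha, b, hb, rfl⟩) f hf
      rw [map_cmm, FreeGroup.lift_apply_of] at h2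
      exact h2
    · have h2 := h1 f hf
      rw [map_nrm, map_pow, FreeGroup.lift_apply_of] at h2
      exact h2

/-- Claim 2: the conditions hold wherever the quasi-identity holds. -/
theorem claim2 {H : Type*} [Group H] {n : ℕ} (A : List (FreeGroup (Fin n)))
    (L : List (Fin n × ℕ × ℕ)) (u : FreeGroup (Fin n)) (hu : SatP H A u) :
    ∀ w ∈ cond A L u, SatP H A w := by
  induction L generalizing u with
  | nil =>
    intro w hw
    simp only [cond, List.mem_singleton] at hw
    rw [hw]
    exact hu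
  | cons t L ih =>
    intro w hw
    simp only [cond, List.mem_append, List.mem_flatMap, List.mem_map, List.mem_range] at hw
    rcases hw with ⟨a, _, b, _, rfl⟩ | hw
    · intro f hf
      rw [map_cmm, hu f hf]
      simp [cmm]
    · apply ih _ _ w hw
      intro f hf
      rw [map_nrm, hu f hf, nrm_one]

/-- Claim 3: the conditions hold in `XX ζ`, if the list `L` contains a killing factor for every
assignment. -/
theorem claim3 (ζ : ℂˣ) {n : ℕ} (A : List (FreeGroup (Fin n)))
    (L : List (Fin n × ℕ × ℕ)) (u : FreeGroup (Fin n))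
    (htop : ∀ f : Fin n → XX ζ, (∀ p ∈ A, FreeGroup.lift f p = 1) →
      (FreeGroup.lift f u).snd = 0)
    (hkill : ∀ f : Fin n → XX ζ, (∀ p ∈ A, FreeGroup.lift f p = 1) →
      (FreeGroup.lift f u).fst ≠ 0 → ∃ t ∈ L, ∑ l ∈ Finset.range t.2.1,
        ((ζ : ℂ) ^ (-((f t.1) ^ (t.2.1 ^ t.2.2)).snd)) ^ l = 0) :
    ∀ w ∈ cond A L u, SatP (XX ζ) A w := by
  induction L generalizing u with
  | nil =>
    intro w hw
    simp only [cond, List.mem_singleton] at hw
    rw [hw]
    intro f hf
    ext
    · by_contra hne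
      obtain ⟨t, ht, _⟩ := hkill f hf hne
      simp at ht
    · exact htop f hf
  | cons t L ih =>
    intro w hw
    simp only [cond, List.mem_append, List.mem_flatMap, List.mem_map, List.mem_range] at hw
    rcases hw with ⟨a, _, b, _, rfl⟩ | hw
    · intro f hf
      rw [map_cmm]
      exact SD.cmm_bot _ _ (htop f hf) a b
    · apply ih _ _ _ w hw
      · intro f hf
        rw [map_nrm, SD.nrm_snd, htop f hf, smul_zero]
      · intro f hf hne
        rw [map_nrm, map_pow, FreeGroup.lift_apply_of, XX_nrm _ _ _ _ (htop f hf)] at hne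
        have h1 := left_ne_zero_of_mul hne
        have h2 := right_ne_zero_of_mul hne
        obtain ⟨s, hs, hs2⟩ := hkill f hf h2
        rcases List.mem_cons.1 hs with h3 | h3
        · subst h3
          exact absurd hs2 h1
        · exact ⟨s, h3, hs2⟩

/-- the injection `XX (ζ^p) → XX ζ`, `(r, b) ↦ (r, p b)` -/
def powHom (ζ : ℂˣ) (p : ℕ) : XX (ζ ^ p) →* XX ζ :=
  SD.map (AddMonoidHom.id ℂ) (AddMonoidHom.mulLeft (p : ℤ)) (by
    intro b r
    simp only [AddMonoidHom.id_apply, AddMonoidHom.coe_mulLeft]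
    rw [XX_act, XX_act]
    rw [zpow_mul, zpow_natCast]
    push_cast
    rfl)

/-- In `XX ζ`, an assignment violating `q` involves an element whose top coordinate is prime
to `p`, provided `q` holds in `XX (ζ^p)`. -/
theorem exists_not_dvd (ζ : ℂˣ) (p : ℕ) (hp : p ≠ 0) {n : ℕ} (A : List (FreeGroup (Fin n)))
    (u : FreeGroup (Fin n)) (h : SatP (XX (ζ ^ p)) A u) (f : Fin n → XX ζ)
    (hf : ∀ w ∈ A, FreeGroup.lift f w = 1) (hu : FreeGroup.lift f u ≠ 1) :
    ∃ i, ¬ (p : ℤ) ∣ (f i).snd := by
  by_contra hcon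
  push Not at hcon
  choose b hb using hcon
  have hinj : Function.Injective (powHom ζ p) := by
    apply SD.map_injective
    · exact Function.injective_id
    · intro x y hxy
      have hpz : (p : ℤ) ≠ 0 := by exact_mod_cast hp
      exact mul_left_cancel₀ hpz hxy
  let g : Fin n → XX (ζ ^ p) := fun i => ⟨(f i).fst, b i⟩
  have hg : (fun i => powHom ζ p (g i)) = f := by
    funext i
    ext
    · rfl
    · exact (hb i).symm
  apply hu
  rw [← hg, lift_hom, h g, map_one]
  intro w hw
  apply hinj
  rw [← lift_hom, hg, hf w hw, map_one]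

/-- if `p ∤ b`, then `x^(p^j)` acts with norm zero -/
theorem kill_factor (p j : ℕ) (hp : p.Prime) (ζ : ℂˣ)
    (hζ : IsPrimitiveRoot (ζ : ℂ) (p ^ (j + 1))) (x : XX ζ) (hx : ¬ (p : ℤ) ∣ x.snd) :
    ∑ l ∈ Finset.range p, ((ζ : ℂ) ^ (-(x ^ (p ^ j)).snd)) ^ l = 0 := by
  rw [SD.pow_snd]
  set w : ℂ := (ζ : ℂ) ^ (-((p ^ j) • x.snd)) with hw
  have h3 : IsPrimitiveRoot ((ζ : ℂ) ^ (p ^ j)) p := hζ.pow (pow_pos hp.pos _) (pow_succ _ _)
  have hw' : w = ((ζ : ℂ) ^ (p ^ j)) ^ (-x.snd) := by
    rw [hw, ← zpow_natCast, ← zpow_mul]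
    congr 1
    simp
  have hwp : w ^ p = 1 := by
    rw [hw', ← zpow_natCast, ← zpow_mul, mul_comm, zpow_mul, zpow_natCast, h3.pow_eq_one,
      one_zpow]
  have hw1 : w ≠ 1 := by
    intro h
    rw [hw', h3.zpow_eq_one_iff_dvd] at h
    exact hx ((Int.dvd_neg).1 h)
  have h5 := geom_sum_mul w p
  rw [hwp, sub_self] at h5
  rcases mul_eq_zero.1 h5 with h6 | h6
  · exact h6
  · exact absurd (sub_eq_zero.1 h6) hw1

/-- **Main theorem.** -/
theorem main (G : Type*) [Group G] (hFM : ∀ q : QId, Sat G q → Sat FM q)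
    (P J : ℕ → ℕ) (hP : ∀ i, (P i).Prime) (hmono : StrictMono P) (Z : ℕ → ℂˣ)
    (hZ : ∀ i, IsPrimitiveRoot (Z i : ℂ) (P i ^ (J i + 1)))
    (h1 : ∀ i, EProp (P i) (J i) G) (h2 : ∀ i q, Sat G q → Sat (XX (Z i ^ P i)) q) :
    ∃ S : Set QId,
      (∀ (H : Type) [Group H], TF H →
        ((∀ q ∈ S, Sat H q) ↔ ∀ q : QId, Sat G q → Sat H q)) ∧
      ∀ σ ∈ S, ∃ (H : Type) (_ : Group H), TF H ∧ (∀ q ∈ S, q ≠ σ → Sat H q) ∧ ¬ Sat H σ := by
  classical
  set M : Set QId := {μ | Sat G μ ∧ ∀ i, Sat (XX (Z i)) μ} with hM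
  have hMne : M.Nonempty := by
    refine ⟨⟨0, ([], 1)⟩, ?_, ?_⟩
    · intro f _
      exact map_one (FreeGroup.lift f)
    · intro i f _
      exact map_one (FreeGroup.lift f)
  have hcount : Countable QId := by
    infer_instance
  obtain ⟨μ, hμ⟩ := (Set.to_countable M).exists_eq_range hMne
  have hμM : ∀ k, μ k ∈ M := by
    intro k
    rw [hμ]
    exact Set.mem_range_self k
  set τ : ℕ → QId := fun k => conj (E (P k) (J k)) (μ k) with hτ
  -- only finitely many of the groups violate a quasi-identity of `G`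
  have hfin : ∀ q : QId, Sat G q → {k : ℕ | ¬ Sat (XX (Z k)) q}.Finite := by
    intro q hq
    by_contra hinf
    have hinf' : {k : ℕ | ¬ Sat (XX (Z k)) q}.Infinite := hinf
    set s : ℕ → ℕ := Nat.nth (fun k => ¬ Sat (XX (Z k)) q) with hs
    have hsm : StrictMono s := Nat.nth_strictMono hinf'
    obtain ⟨i, hi⟩ := exists_sat (fun i => P (s i)) (fun i => J (s i)) (fun i => hP _)
      (hmono.comp hsm) (fun i => Z (s i)) (fun i => hZ _) (hFM q hq)
    exact Nat.nth_mem_of_infinite hinf' i hi
  refine ⟨Set.range τ, ?_, ?_⟩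
  · intro H _ _
    constructor
    · intro hS q hq
      have hHE : ∀ k, EProp (P k) (J k) H := by
        intro k
        have := hS (τ k) (Set.mem_range_self k)
        rw [hτ, sat_conj_iff] at this
        exact (sat_E_iff _ _ _).1 this.1
      have hHM : ∀ ν ∈ M, Sat H ν := by
        intro ν hν
        rw [hμ] at hν
        obtain ⟨k, rfl⟩ := hν
        have := hS (τ k) (Set.mem_range_self k)
        rw [hτ, sat_conj_iff] at this
        exact this.2
      obtain ⟨n, A, u⟩ := q
      set K := (hfin _ hq).toFinset with hK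
      set L : List (Fin n × ℕ × ℕ) := K.toList.flatMap (fun k =>
        (List.finRange n).map (fun i => (i, P k, J k))) with hL
      have hmemL : ∀ t, t ∈ L ↔ ∃ k, ¬ Sat (XX (Z k)) ⟨n, (A, u)⟩ ∧ ∃ i : Fin n,
          (i, P k, J k) = t := by
        intro t
        simp only [hL, List.mem_flatMap, List.mem_map, Finset.mem_toList, hK,
          Set.Finite.mem_toFinset, Set.mem_ofPred_eq, List.mem_finRange, true_and]
      have hG : SatP G A u := hq
      apply claim1 A L
      · intro t ht
        obtain ⟨k, _, i, rfl⟩ := (hmemL t).1 ht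
        exact hHE k
      · intro w hw
        apply hHM ⟨n, (A, w)⟩
        refine ⟨claim2 A L u hG w hw, ?_⟩
        intro k
        by_cases hk : Sat (XX (Z k)) ⟨n, (A, u)⟩
        · exact claim2 A L u hk w hw
        · apply claim3 (Z k) A L u _ _ w hw
          · intro f hf
            have h3 : Sat (Multiplicative ℤ) ⟨n, (A, u)⟩ := sat_Z (hFM _ hq)
            have h4 := h3 (fun i => SD.topHom (f i)) (by
              intro w hw
              rw [lift_hom]
              have : FreeGroup.lift f w = 1 := hf w hw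
              rw [this, map_one])
            rw [lift_hom] at h4
            exact h4
          · intro f hf hne
            have h3 : SatP (XX (Z k ^ P k)) A u := h2 k _ hq
            obtain ⟨i, hi⟩ := exists_not_dvd (Z k) (P k) (hP k).ne_zero A u h3 f hf (by
              intro h
              rw [h] at hne
              exact hne rfl)
            refine ⟨(i, P k, J k), ?_, ?_⟩
            · rw [hmemL]
              exact ⟨k, hk, i, rfl⟩
            · exact kill_factor (P k) (J k) (hP k) (Z k) (hZ k) (f i) hi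
    · rintro hG q ⟨k, rfl⟩
      apply hG
      rw [hτ, sat_conj_iff]
      exact ⟨(sat_E_iff _ _ _).2 (h1 k), (hμM k).1⟩
  · rintro σ ⟨k, rfl⟩
    refine ⟨XX (Z k), inferInstance, XX_TF _, ?_, ?_⟩
    · rintro q ⟨l, rfl⟩ hne
      have hlk : l ≠ k := by
        rintro rfl
        exact hne rfl
      rw [hτ, sat_conj_iff]
      refine ⟨?_, (hμM l).2 k⟩
      apply sat_E_of_ne (P l) (P k) (J l) (J k + 1) (hP l) (hP k)
      · intro h
        exact hlk (hmono.injective h)
      · exact (hZ k).pow_eq_one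
    · rw [hτ, sat_conj_iff]
      intro h
      exact not_E (P k) (J k) (hP k) (Z k) (hZ k) h.1

end Pool.Agent.Helper111.QI
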