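import Mathlib
import Pool.Agent.Helper111.QI.Main

set_option autoImplicit false

namespace Pool.Agent.Helper111.QI

open scoped commutatorElement

theorem nrm_succ' {H : Type*} [Group H] (p : ℕ) (z y : H) :
    nrm (p + 1) z y = z * (y⁻¹ * nrm p z y * y) := by
  induction p with
  | zero => simp [nrm_succ, nrm_zero]
  | succ p ih =>
    conv_rhs => rw [nrm_succ p]
    rw [nrm_succ (p + 1), ih]
    group

/-- `z^(y^p) = z` if the norm is trivial -/
theorem comm_of_nrm {H : Type*} [Group H] (p : ℕ) (z y : H) (h : nrm p z y = 1) :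
    (y ^ p)⁻¹ * z * y ^ p = z := by
  have h1 := nrm_succ p z y
  rw [nrm_succ', h] at h1
  simpa using h1.symm

/-- evaluation of Laurent polynomials at `ζ` -/
noncomputable def evz (ζ : ℂˣ) : MonoidAlgebra ℤ (Multiplicative ℤ) →+* ℂ :=
  (MonoidAlgebra.lift ℤ ℂ (Multiplicative ℤ)
    ((Units.coeHom ℂ).comp (zpowersHom ℂˣ ζ))).toRingHom

theorem evz_single (ζ : ℂˣ) (k : Multiplicative ℤ) (n : ℤ) :
    evz ζ (MonoidAlgebra.single k n) = n * (ζ : ℂ) ^ (k.toAdd) := by
  simp [evz]

section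

variable {H : Type*} [Group H] (x z : H)
  (hc : ∀ k l : ℤ, (x ^ k * z * x ^ (-k)) * (x ^ l * z * x ^ (-l)) =
    (x ^ l * z * x ^ (-l)) * (x ^ k * z * x ^ (-k)))

theorem expF_neg (s : MonoidAlgebra ℤ (Multiplicative ℤ)) :
    expF x z hc (-s) = (expF x z hc s)⁻¹ := by
  have h := expF_add x z hc s (-s)
  rw [add_neg_cancel, expF_zero] at h
  exact (inv_eq_of_mul_eq_one_right h.symm).symm

/-- the annihilator is an ideal -/
theorem expF_mul_left (r s : MonoidAlgebra ℤ (Multiplicative ℤ)) (hs : expF x z hc s = 1) :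
    expF x z hc (r * s) = 1 := by
  induction r using MonoidAlgebra.induction_linear with
  | zero => rw [zero_mul, expF_zero]
  | add a b ha hb => rw [add_mul, expF_add, ha, hb, one_mul]
  | single k n =>
    have h1 : expF x z hc (MonoidAlgebra.single k 1 * s) = 1 := by
      have h2 := expF_conj x z hc k.toAdd s
      rw [hs, mul_one, ← zpow_add, add_neg_cancel, zpow_zero] at h2
      exact h2.symm
    have h2 : (MonoidAlgebra.single k n : MonoidAlgebra ℤ (Multiplicative ℤ)) * s =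
        n • (MonoidAlgebra.single k 1 * s) := by
      rw [← smul_mul_assoc]
      congr 1
      simp
    rw [h2]
    have h3 : ∀ m : ℕ, expF x z hc (m • (MonoidAlgebra.single k 1 * s)) = 1 := by
      intro m
      induction m with
      | zero => rw [zero_smul, expF_zero]
      | succ m ih => rw [succ_nsmul, expF_add, ih, h1, one_mul]
    rcases Int.eq_nat_or_neg n with ⟨m, rfl | rfl⟩
    · rw [natCast_zsmul]
      exact h3 m
    · rw [neg_smul, natCast_zsmul, expF_neg, h3 m, inv_one]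

/-- the polynomial of the norm -/
noncomputable def nrmPoly (p : ℕ) (m : ℤ) : MonoidAlgebra ℤ (Multiplicative ℤ) :=
  ∑ l ∈ Finset.range p, MonoidAlgebra.single (Multiplicative.ofAdd (-((l : ℤ) * m))) 1

theorem expF_nrmPoly (p : ℕ) (m : ℕ) :
    expF x z hc (nrmPoly p m) = nrm p z (x ^ m) := by
  induction p with
  | zero => simp [nrmPoly, nrm_zero]
  | succ p ih =>
    unfold nrmPoly at ih ⊢
    rw [Finset.sum_range_succ, expF_add, ih, nrm_succ, expF_single]
    congr 1
    rw [zpow_one, toAdd_ofAdd, neg_neg, zpow_neg]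
    have : x ^ ((p : ℤ) * (m : ℤ)) = (x ^ m) ^ p := by
      rw [mul_comm, zpow_mul, zpow_natCast, zpow_natCast]
    rw [this]

end

/-- `p`-th cyclotomic polynomial relation: everything vanishing at `ζ` annihilates `z`. -/
theorem expF_of_evz {H : Type*} [Group H] (x z : H)
    (hc : ∀ k l : ℤ, (x ^ k * z * x ^ (-k)) * (x ^ l * z * x ^ (-l)) =
      (x ^ l * z * x ^ (-l)) * (x ^ k * z * x ^ (-k)))
    (p j : ℕ) (hp : p.Prime) (hn : nrm p z (x ^ (p ^ j)) = 1) (ζ : ℂˣ)
    (hζ : IsPrimitiveRoot (ζ : ℂ) (p ^ (j + 1)))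
    (s : MonoidAlgebra ℤ (Multiplicative ℤ)) (hs : evz ζ s = 0) : expF x z hc s = 1 := by
  classical
  have hNpos : 0 < p ^ (j + 1) := pow_pos hp.pos _
  have : Fact p.Prime := ⟨hp⟩
  set T : MonoidAlgebra ℤ (Multiplicative ℤ) :=
    MonoidAlgebra.single (Multiplicative.ofAdd 1) 1 with hT
  have hTpow : ∀ m : ℕ, T ^ m = MonoidAlgebra.single (Multiplicative.ofAdd (m : ℤ)) 1 := by
    intro m
    rw [hT, MonoidAlgebra.single_pow, one_pow, ← ofAdd_nsmul]
    simp
  have hevT : evz ζ T = (ζ : ℂ) := by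
    rw [hT, evz_single]
    simp
  -- the cyclotomic polynomial annihilates
  have hcyc : expF x z hc (Polynomial.aeval T (Polynomial.cyclotomic (p ^ (j + 1)) ℤ)) = 1 := by
    have h1 : Polynomial.aeval T (Polynomial.cyclotomic (p ^ (j + 1)) ℤ) =
        MonoidAlgebra.single (Multiplicative.ofAdd (((p : ℤ) - 1) * (p : ℤ) ^ j)) 1 *
          nrmPoly p ((p ^ j : ℕ) : ℤ) := by
      rw [Polynomial.cyclotomic_prime_pow_eq_geom_sum hp, map_sum, nrmPoly, Finset.mul_sum,
        ← Finset.sum_range_reflect]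
      apply Finset.sum_congr rfl
      intro l hl
      have hl' := Finset.mem_range.1 hl
      rw [map_pow, map_pow, Polynomial.aeval_X, ← pow_mul, hTpow, MonoidAlgebra.single_mul_single,
        one_mul, ← ofAdd_add]
      congr 2
      have h5 : ((p - 1 - l : ℕ) : ℤ) = (p : ℤ) - 1 - l := by omega
      push_cast
      rw [h5]
      ring
    rw [h1]
    apply expF_mul_left
    rw [expF_nrmPoly, hn]
  -- clear denominators
  obtain ⟨m, hm⟩ : ∃ m : ℕ, ∀ k ∈ s.coeff.support, 0 ≤ k.toAdd + (m : ℤ) := by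
    refine ⟨∑ k ∈ s.coeff.support, k.toAdd.natAbs, fun k hk => ?_⟩
    have h1 : k.toAdd.natAbs ≤ ∑ k ∈ s.coeff.support, k.toAdd.natAbs :=
      Finset.single_le_sum (f := fun k : Multiplicative ℤ => k.toAdd.natAbs)
        (fun i _ => Nat.zero_le _) hk
    omega
  set f : Polynomial ℤ := ∑ k ∈ s.coeff.support,
    Polynomial.C (s.coeff k) * Polynomial.X ^ (k.toAdd + (m : ℤ)).toNat with hf
  have hfT : Polynomial.aeval T f =
      MonoidAlgebra.single (Multiplicative.ofAdd (m : ℤ)) 1 * s := by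
    have hs2 : s = ∑ k ∈ s.coeff.support, MonoidAlgebra.single k (s.coeff k) := by
      apply MonoidAlgebra.coeff_injective
      rw [MonoidAlgebra.coeff_sum]
      simp only [MonoidAlgebra.coeff_single]
      exact (Finsupp.sum_single s.coeff).symm
    conv_rhs => rw [hs2]
    rw [hf, map_sum, Finset.mul_sum]
    apply Finset.sum_congr rfl
    intro k hk
    rw [map_mul, Polynomial.aeval_C, map_pow, Polynomial.aeval_X, hTpow,
      MonoidAlgebra.single_mul_single, one_mul, Int.toNat_of_nonneg (hm k hk)]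
    rw [← Algebra.smul_def]
    rw [show Multiplicative.ofAdd (k.toAdd + (m : ℤ)) = Multiplicative.ofAdd (m : ℤ) * k by
      rw [ofAdd_add, ofAdd_toAdd, mul_comm]]
    simp
  have hfζ : Polynomial.aeval (ζ : ℂ) f = 0 := by
    have h1 : Polynomial.aeval (ζ : ℂ) f = evz ζ (Polynomial.aeval T f) := by
      rw [← hevT]
      exact Polynomial.hom_eval₂ f (algebraMap ℤ _) (evz ζ) T |>.symm ▸ (by
        simp [Polynomial.aeval_def, Polynomial.eval₂_eq_sum])
    rw [h1, hfT, map_mul, hs, mul_zero]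
  have hdvd : Polynomial.cyclotomic (p ^ (j + 1)) ℤ ∣ f := by
    rw [Polynomial.cyclotomic_eq_minpoly hζ hNpos]
    exact minpoly.isIntegrallyClosed_dvd (hζ.isIntegral hNpos) hfζ
  obtain ⟨g, hg⟩ := hdvd
  have h1 : expF x z hc (MonoidAlgebra.single (Multiplicative.ofAdd (m : ℤ)) 1 * s) = 1 := by
    rw [← hfT, hg, map_mul, mul_comm]
    exact expF_mul_left x z hc _ _ hcyc
  have h2 := expF_mul_left x z hc (MonoidAlgebra.single (Multiplicative.ofAdd (-(m : ℤ))) 1) _ h1
  rw [← mul_assoc, MonoidAlgebra.single_mul_single, ← ofAdd_add, neg_add_cancel, one_mul] at h2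
  have h3 : (MonoidAlgebra.single (Multiplicative.ofAdd (0 : ℤ)) 1 :
      MonoidAlgebra ℤ (Multiplicative ℤ)) = 1 := rfl
  rwa [h3, one_mul] at h2

/-- If `G` is torsion-free and `z ≠ 1`, then only the elements vanishing at `ζ`
annihilate `z`. -/
theorem evz_of_expF {H : Type*} [Group H] (hTF : TF H) (x z : H) (hz : z ≠ 1)
    (hc : ∀ k l : ℤ, (x ^ k * z * x ^ (-k)) * (x ^ l * z * x ^ (-l)) =
      (x ^ l * z * x ^ (-l)) * (x ^ k * z * x ^ (-k)))
    (p j : ℕ) (hp : p.Prime) (hn : nrm p z (x ^ (p ^ j)) = 1) (ζ : ℂˣ)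
    (hζ : IsPrimitiveRoot (ζ : ℂ) (p ^ (j + 1)))
    (s : MonoidAlgebra ℤ (Multiplicative ℤ)) (hs : expF x z hc s = 1) : evz ζ s = 0 := by
  classical
  by_contra hne
  have hNpos : 0 < p ^ (j + 1) := pow_pos hp.pos _
  -- the value is an algebraic integer
  have hint : IsIntegral ℤ (evz ζ s) := by
    have h0 : IsIntegral ℤ (ζ : ℂ) := hζ.isIntegral hNpos
    have h0' : IsIntegral ℤ ((ζ : ℂ)⁻¹) := (hζ.inv).isIntegral hNpos
    have h1 : ∀ r : MonoidAlgebra ℤ (Multiplicative ℤ), IsIntegral ℤ (evz ζ r) := by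
      intro r
      induction r using MonoidAlgebra.induction_linear with
      | zero => rw [map_zero]; exact isIntegral_zero
      | add a b ha hb => rw [map_add]; exact ha.add hb
      | single k n =>
        rw [evz_single]
        apply IsIntegral.mul
        · exact isIntegral_algebraMap (R := ℤ) (x := n)
        · rcases Int.eq_nat_or_neg k.toAdd with ⟨m, h | h⟩
          · rw [h, zpow_natCast]
            exact h0.pow m
          · rw [h, zpow_neg, zpow_natCast, ← inv_pow]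
            exact h0'.pow m
    exact h1 s
  set mp := minpoly ℤ (evz ζ s) with hmp
  have hc0 : mp.coeff 0 ≠ 0 := by
    intro h0
    have h1 : minpoly ℚ (evz ζ s) = mp.map (algebraMap ℤ ℚ) :=
      minpoly.isIntegrallyClosed_eq_field_fractions' ℚ hint
    have h2 : (minpoly ℚ (evz ζ s)).coeff 0 ≠ 0 :=
      minpoly.coeff_zero_ne_zero hint.tower_top hne
    apply h2
    rw [h1, Polynomial.coeff_map, h0, map_zero]
  set s' : MonoidAlgebra ℤ (Multiplicative ℤ) := Polynomial.aeval s mp.divX with hs'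
  have h1 : evz ζ (Polynomial.aeval s mp) = 0 := by
    have h2 : Polynomial.aeval (evz ζ s) mp = 0 := minpoly.aeval ℤ _
    rw [← h2]
    simp [Polynomial.aeval_def, Polynomial.eval₂_eq_sum, Polynomial.sum_def]
  have h2 : expF x z hc (Polynomial.aeval s mp) = 1 :=
    expF_of_evz x z hc p j hp hn ζ hζ _ h1
  have h3 : Polynomial.aeval s mp = s' * s + MonoidAlgebra.single 1 (mp.coeff 0) := by
    conv_lhs => rw [← Polynomial.divX_mul_X_add mp]
    rw [map_add, map_mul, Polynomial.aeval_X, Polynomial.aeval_C]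
    rfl
  rw [h3, expF_add, expF_mul_left x z hc s' s hs, one_mul, expF_single] at h2
  have h4 : z ^ (mp.coeff 0) = 1 := by
    simpa using h2
  have h5 : z ^ (mp.coeff 0).natAbs = 1 := by
    rcases Int.natAbs_eq (mp.coeff 0) with h | h
    · rw [h, zpow_natCast] at h4
      simpa using h4
    · rw [h, zpow_neg, zpow_natCast, inv_eq_one] at h4
      simpa using h4
  exact hTF z hz _ (Int.natAbs_pos.2 hc0) h5

/-- conjugates of `z` by all powers of `x` commute -/
theorem all_comm {H : Type*} [Group H] (x z : H) (N : ℕ) (hN : 0 < N)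
    (hcm : ∀ a < N, ∀ b < N, cmm z x a b = 1) (hxN : (x ^ N)⁻¹ * z * x ^ N = z) :
    ∀ k l : ℤ, (x ^ k * z * x ^ (-k)) * (x ^ l * z * x ^ (-l)) =
      (x ^ l * z * x ^ (-l)) * (x ^ k * z * x ^ (-k)) := by
  have hcom : Commute (x ^ N) z := by
    have : z * x ^ N = x ^ N * z := by
      calc z * x ^ N = x ^ N * ((x ^ N)⁻¹ * z * x ^ N) := by group
        _ = x ^ N * z := by rw [hxN]
    exact this.symm
  have hred : ∀ k : ℤ, ∃ a < N, x ^ k * z * x ^ (-k) = (x ^ a)⁻¹ * z * x ^ a := by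
    intro k
    have hNZ : (0 : ℤ) < (N : ℤ) := by exact_mod_cast hN
    refine ⟨((-k) % (N : ℤ)).toNat, ?_, ?_⟩
    · have := Int.emod_lt_of_pos (-k) hNZ
      have h2 := Int.emod_nonneg (-k) hNZ.ne'
      omega
    · set a := ((-k) % (N : ℤ)).toNat with ha
      have ha' : (a : ℤ) = (-k) % (N : ℤ) := Int.toNat_of_nonneg (Int.emod_nonneg (-k) hNZ.ne')
      have h1 : k = -(a : ℤ) + (N : ℤ) * (-((-k) / (N : ℤ))) := by
        have := Int.emod_add_mul_ediv (-k) (N : ℤ)
        rw [ha']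
        linarith
      set t : ℤ := -((-k) / (N : ℤ)) with ht
      have h2 : x ^ k = x ^ (-(a : ℤ)) * (x ^ N) ^ t := by
        conv_lhs => rw [h1, zpow_add, zpow_mul, zpow_natCast]
      have h3 : x ^ (-k) = ((x ^ N) ^ t)⁻¹ * x ^ (a : ℤ) := by
        rw [zpow_neg, h2, mul_inv_rev, zpow_neg x (a : ℤ), inv_inv]
      rw [h3, h2, zpow_neg, zpow_natCast]
      have h4 : (x ^ N) ^ t * z = z * (x ^ N) ^ t := (hcom.zpow_left t)
      calc (x ^ a)⁻¹ * (x ^ N) ^ t * z * (((x ^ N) ^ t)⁻¹ * x ^ a)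
          = (x ^ a)⁻¹ * ((x ^ N) ^ t * z) * ((x ^ N) ^ t)⁻¹ * x ^ a := by group
        _ = (x ^ a)⁻¹ * (z * (x ^ N) ^ t) * ((x ^ N) ^ t)⁻¹ * x ^ a := by rw [h4]
        _ = (x ^ a)⁻¹ * z * x ^ a := by group
  intro k l
  obtain ⟨a, ha, hka⟩ := hred k
  obtain ⟨b, hb, hlb⟩ := hred l
  rw [hka, hlb]
  have := hcm a ha b hb
  unfold cmm at this
  exact commutatorElement_eq_one_iff_mul_comm.1 this

/-- If `E p j` fails in a torsion-free group `G`, then every quasi-identity of `G` holds in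
`XX ζ`, for `ζ` a primitive root of unity of order `p^(j+1)`. -/
theorem sat_of_not_E {G : Type*} [Group G] (hTF : TF G) (p j : ℕ) (hp : p.Prime)
    (hE : ¬ EProp p j G) (ζ : ℂˣ) (hζ : IsPrimitiveRoot (ζ : ℂ) (p ^ (j + 1))) {q : QId}
    (hZ : Sat (Multiplicative ℤ) q) (hq : Sat G q) : Sat (XX ζ) q := by
  classical
  unfold EProp at hE
  push Not at hE
  obtain ⟨z, x, hcm, hn, hz⟩ := hE
  have hNpos : 0 < p ^ (j + 1) := pow_pos hp.pos _
  have hxN : (x ^ (p ^ (j + 1)))⁻¹ * z * x ^ (p ^ (j + 1)) = z := by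
    have := comm_of_nrm p z (x ^ (p ^ j)) hn
    rwa [← pow_mul, ← pow_succ] at this
  have hc := all_comm x z (p ^ (j + 1)) hNpos hcm hxN
  have htop : ∀ g : Fin q.1 → XX ζ, (∀ w ∈ q.2.1, FreeGroup.lift g w = 1) →
      (FreeGroup.lift g q.2.2).snd = 0 := by
    intro g hg
    have h2 := hZ (fun i => SD.topHom (g i)) (by
      intro w hw
      rw [lift_hom, hg w hw, map_one])
    rw [lift_hom] at h2
    exact h2
  intro f hf
  by_contra hu
  have hfst : (FreeGroup.lift f q.2.2).fst ≠ 0 := by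
    intro h
    apply hu
    ext
    · exact h
    · exact htop f hf
  have hD : ∀ b : ℤ, SD.act (zpowersHom ℂˣ ζ) b ∈ (evz ζ).range := by
    intro b
    refine ⟨MonoidAlgebra.single (Multiplicative.ofAdd b) 1, ?_⟩
    rw [evz_single, XX_act]
    simp
  obtain ⟨f', hD', hs', hA', hu'⟩ := reduce_subring (zpowersHom ℂˣ ζ) (evz ζ).range hD q.2.1
    q.2.2 f hf hfst
  choose s hs using hD'
  let Ev : WZ →* XX ζ := SD.map (evz ζ).toAddMonoidHom (AddMonoidHom.id ℤ) (by
    intro b r
    simp only [RingHom.toAddMonoidHom_eq_coe, AddMonoidHom.coe_coe, map_mul,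
      AddMonoidHom.id_apply]
    congr 1
    rw [XX_act]
    simp only [SD.act, ofU_coe]
    rw [evz_single]
    simp)
  let g : Fin q.1 → WZ := fun i => ⟨s i, (f' i).snd⟩
  have hEg : (fun i => Ev (g i)) = f' := by
    funext i
    ext
    · exact hs i
    · rfl
  have hfac : ∀ w : FreeGroup (Fin q.1), FreeGroup.lift f' w = Ev (FreeGroup.lift g w) := by
    intro w
    rw [← hEg, lift_hom]
  have h1 := hq (fun i => wreathHom x z hc (g i)) (by
    intro w hw
    rw [lift_hom, wreathHom_apply]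
    have h2 := hA' w hw
    rw [hfac] at h2
    have h3 : evz ζ (FreeGroup.lift g w).fst = 0 := congrArg SD.fst h2
    have h4 : (FreeGroup.lift g w).snd = 0 := congrArg SD.snd h2
    rw [h4, zpow_zero, mul_one]
    exact expF_of_evz x z hc p j hp hn ζ hζ _ h3)
  rw [lift_hom, wreathHom_apply] at h1
  have h4 : (FreeGroup.lift g q.2.2).snd = 0 := by
    have h5 := htop f' hA'
    rw [hfac] at h5
    exact h5
  rw [h4, zpow_zero, mul_one] at h1
  have h5 := evz_of_expF hTF x z hz hc p j hp hn ζ hζ _ h1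
  apply hu'
  rw [hfac]
  exact h5

end Pool.Agent.Helper111.QI
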