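import Mathlib
import Pool.Agent.Helper111.QI.G7

set_option autoImplicit false

namespace Pool.Agent.Helper111.QI

/-- quasi-identities of `ℤ` hold in `XX 1 = ℂ × ℤ` -/
theorem sat_XX_one {q : QId} (hZ : Sat (Multiplicative ℤ) q) : Sat (XX 1) q := by
  have h1 : Sat (Multiplicative (ℂ × ℤ)) q := sat_abelian hZ
  let g : XX 1 →* Multiplicative (ℂ × ℤ) :=
    { toFun := fun x => Multiplicative.ofAdd (x.fst, x.snd)
      map_one' := rfl
      map_mul' := by
        intro x y
        rw [← ofAdd_add]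
        congr 1
        simp [XX_act] }
  apply Sat.of_injective g _ h1
  intro x y hxy
  have h2 : (x.fst, x.snd) = (y.fst, y.snd) := hxy
  ext
  · exact congrArg Prod.fst h2
  · exact congrArg Prod.snd h2

theorem exists_root (N : ℕ) (hN : 0 < N) : ∃ ζ : ℂˣ, IsPrimitiveRoot (ζ : ℂ) N := by
  refine ⟨Units.mk0 (Complex.exp (2 * Real.pi * Complex.I / N)) (Complex.exp_ne_zero _), ?_⟩
  exact Complex.isPrimitiveRoot_exp N hN.ne'

/-- **General criterion.** -/
theorem general (G : Type*) [Group G] (hTF : TF G) (hFM : ∀ q : QId, Sat G q → Sat FM q)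
    (hinf : {p : ℕ | p.Prime ∧ ∃ j, EProp p j G}.Infinite) :
    ∃ S : Set QId,
      (∀ (H : Type) [Group H], TF H →
        ((∀ q ∈ S, Sat H q) ↔ ∀ q : QId, Sat G q → Sat H q)) ∧
      ∀ σ ∈ S, ∃ (H : Type) (_ : Group H), TF H ∧ (∀ q ∈ S, q ≠ σ → Sat H q) ∧ ¬ Sat H σ := by
  classical
  set P : ℕ → ℕ := Nat.nth (fun p => p.Prime ∧ ∃ j, EProp p j G) with hPdef
  have hmono : StrictMono P := Nat.nth_strictMono hinf
  have hmem : ∀ i, (P i).Prime ∧ ∃ j, EProp (P i) j G := fun i => Nat.nth_mem_of_infinite hinf i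
  set J : ℕ → ℕ := fun i => Nat.find (hmem i).2 with hJ
  have hJ1 : ∀ i, EProp (P i) (J i) G := fun i => Nat.find_spec (hmem i).2
  have hJ2 : ∀ i m, m < J i → ¬ EProp (P i) m G := fun i m hm => Nat.find_min (hmem i).2 hm
  have hroot : ∀ i, ∃ ζ : ℂˣ, IsPrimitiveRoot (ζ : ℂ) (P i ^ (J i + 1)) := fun i =>
    exists_root _ (pow_pos (hmem i).1.pos _)
  choose Z hZ using hroot
  apply main G hFM P J (fun i => (hmem i).1) hmono Z hZ hJ1
  intro i q hq
  have hqZ : Sat (Multiplicative ℤ) q := sat_Z (hFM q hq)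
  rcases Nat.eq_zero_or_pos (J i) with h0 | h0
  · have h1 : Z i ^ P i = 1 := by
      have h2 := (hZ i).pow_eq_one
      rw [h0, zero_add, pow_one] at h2
      apply Units.ext
      simpa using h2
    rw [h1]
    exact sat_XX_one hqZ
  · obtain ⟨m, hm⟩ : ∃ m, J i = m + 1 := ⟨J i - 1, by omega⟩
    have h1 : IsPrimitiveRoot ((Z i ^ P i : ℂˣ) : ℂ) (P i ^ (m + 1)) := by
      have h2 := hZ i
      rw [hm] at h2
      have h3 : IsPrimitiveRoot (((Z i : ℂˣ) : ℂ) ^ P i) (P i ^ (m + 1)) :=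
        h2.pow (pow_pos (hmem i).1.pos _)
          (show P i ^ (m + 1 + 1) = P i * P i ^ (m + 1) by rw [pow_succ, mul_comm])
      simpa using h3
    exact sat_of_not_E hTF (P i) m (hmem i).1 (hJ2 i m (by omega)) _ h1 hqZ hq

/-- `nrm p z x = 1` means that `z x⁻¹` and `x⁻¹` have the same `p`-th power -/
theorem nrm_eq {H : Type*} [Group H] (p : ℕ) (z x : H) :
    nrm p z x = (z * x⁻¹) ^ p * x ^ p := by
  induction p with
  | zero => simp [nrm_zero]
  | succ p ih =>
    rw [nrm_succ, ih, pow_succ, pow_succ x p]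
    group

/-- groups with unique `p`-th roots satisfy `E p 0` -/
theorem EProp_of_unique_roots {G : Type*} [Group G] (p : ℕ)
    (h : ∀ g k : G, g ^ p = k ^ p → g = k) : EProp p 0 G := by
  intro z x _ hn
  rw [pow_zero, pow_one, nrm_eq] at hn
  have h1 : (z * x⁻¹) ^ p = (x⁻¹) ^ p := by
    rw [inv_pow]
    exact eq_inv_of_mul_eq_one_left hn
  have h2 := h _ _ h1
  simpa using h2

end Pool.Agent.Helper111.QI
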