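import Mathlib
import Pool.Agent.Helper111.QI.General

set_option autoImplicit false

namespace Pool.Agent.Helper111.QI

theorem jac_int : IsJacobsonRing ℤ := by
  rw [isJacobsonRing_iff_prime_eq]
  intro P hP
  by_cases h : P = ⊥
  · subst h
    rw [eq_bot_iff]
    intro x hx
    rw [Ideal.mem_jacobson_bot] at hx
    have h1 := hx x
    rw [Int.isUnit_iff] at h1
    rw [Ideal.mem_bot]
    rcases h1 with h1 | h1
    · have : x * x = 0 := by linarith
      exact mul_self_eq_zero.1 this
    · exfalso
      nlinarith [mul_self_nonneg x]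
  · have : P.IsMaximal := IsPrime.to_maximal_ideal h
    exact Ideal.jacobson_eq_self_of_isMaximal

/-- residue fields of finitely generated commutative rings are finite -/
theorem residue_finite (S : Type*) [CommRing S] [Algebra.FiniteType ℤ S] (m : Ideal S)
    [hm : m.IsMaximal] : Finite (S ⧸ m) := by
  let F : Field (S ⧸ m) := Ideal.Quotient.field m
  have h0 : Algebra.FiniteType ℤ (S ⧸ m) :=
    Algebra.FiniteType.of_surjective ((Ideal.Quotient.mkₐ S m).restrictScalars ℤ)
      Ideal.Quotient.mk_surjective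
  have hJ : IsJacobsonRing ℤ := jac_int
  have h1 : Module.Finite ℤ (S ⧸ m) := finite_of_finite_type_of_isJacobsonRing ℤ (S ⧸ m)
  obtain ⟨p, hp⟩ := CharP.exists (S ⧸ m)
  rcases Nat.eq_zero_or_pos p with h2 | h2
  · exfalso
    subst h2
    have hc : CharZero (S ⧸ m) := CharP.charP_to_charZero (S ⧸ m)
    have h3 : Function.Injective (algebraMap ℤ (S ⧸ m)) := by
      have : (algebraMap ℤ (S ⧸ m)) = Int.castRingHom (S ⧸ m) := RingHom.ext_int _ _
      rw [this]
      exact RingHom.injective_int _
    have hi : Algebra.IsIntegral ℤ (S ⧸ m) := Algebra.IsIntegral.of_finite ℤ (S ⧸ m)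
    have h4 : IsField ℤ := isField_of_isIntegral_of_isField h3 (Field.toIsField _)
    exact Int.not_isField h4
  · apply Module.finite_of_fg_torsion (S ⧸ m)
    intro x
    refine ⟨⟨(p : ℤ), ?_⟩, ?_⟩
    · rw [mem_nonZeroDivisors_iff_ne_zero]
      exact_mod_cast h2.ne'
    · change (p : ℤ) • x = 0
      rw [zsmul_eq_mul]
      simp

universe v

/-- In a finitely generated module over a finitely generated commutative ring, the elements
`1 + s + ⋯ + s^(p-1)` act injectively for all large primes `p`. -/
theorem module_bound (S : Type*) [CommRing S] [Algebra.FiniteType ℤ S]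
    (M : Type v) [AddCommGroup M] [Module S M] (hM : Module.Finite S M) :
    ∃ B : ℕ, ∀ p : ℕ, p.Prime → B < p → ∀ (s : S) (m : M),
      (∑ l ∈ Finset.range p, s ^ l) • m = 0 → m = 0 := by
  have hN : IsNoetherianRing S := Algebra.FiniteType.isNoetherianRing ℤ S
  induction hM using IsNoetherianRing.induction_on_isQuotientEquivQuotientPrime (A := S) with
  | subsingleton N => exact ⟨0, fun p _ _ s m _ => Subsingleton.elim _ _⟩
  | quotient N P e =>
    obtain ⟨n, hn, hPn⟩ := Ideal.exists_le_maximal P.1 P.2.ne_top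
    have hfin : Finite (S ⧸ n) := residue_finite S n
    let F : Field (S ⧸ n) := Ideal.Quotient.field n
    refine ⟨Nat.card (S ⧸ n), fun p hp hB s m hm => ?_⟩
    by_contra hm0
    have h1 : (∑ l ∈ Finset.range p, s ^ l) • e m = 0 := by rw [← map_smul, hm, map_zero]
    have h2 : e m ≠ 0 := fun h => hm0 (by simpa using h)
    have h3 : (∑ l ∈ Finset.range p, s ^ l) ∈ P.1 := by
      have hPp : P.1.IsPrime := P.2
      rw [Algebra.smul_def] at h1
      rcases mul_eq_zero.1 h1 with h4 | h4
      · exact Ideal.Quotient.eq_zero_iff_mem.1 h4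
      · exact absurd h4 h2
    have h4 : (Ideal.Quotient.mk n (∑ l ∈ Finset.range p, s ^ l)) = 0 :=
      Ideal.Quotient.eq_zero_iff_mem.2 (hPn h3)
    rw [map_sum] at h4
    simp only [map_pow] at h4
    set t := Ideal.Quotient.mk n s with ht
    have h5 : t ^ p = 1 := by
      have := geom_sum_mul t p
      rw [h4, zero_mul] at this
      exact (sub_eq_zero.1 this.symm)
    have hp1 : (p : S ⧸ n) ≠ 0 := by
      intro h6
      have h7 : ringChar (S ⧸ n) ∣ p := (ringChar.spec _ p).1 h6
      have h8 : ringChar (S ⧸ n) ≠ 1 := CharP.ringChar_ne_one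
      have h9 : ringChar (S ⧸ n) = p := ((Nat.dvd_prime hp).1 h7).resolve_left h8
      have h10 : ((Nat.card (S ⧸ n) : ℕ) : S ⧸ n) = 0 := by
        have := Fintype.ofFinite (S ⧸ n)
        rw [Nat.card_eq_fintype_card]
        exact Nat.cast_card_eq_zero _
      have h11 : p ∣ Nat.card (S ⧸ n) := by
        rw [← h9]
        exact (ringChar.spec _ _).1 h10
      have h12 : 0 < Nat.card (S ⧸ n) := Nat.card_pos
      have := Nat.le_of_dvd h12 h11
      omega
    have ht1 : t ≠ 1 := by
      intro h6
      rw [h6] at h4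
      simp at h4
      exact hp1 h4
    have ht0 : t ≠ 0 := by
      intro h6
      rw [h6, zero_pow hp.ne_zero] at h5
      exact zero_ne_one h5
    have : Fact p.Prime := ⟨hp⟩
    have h6 : orderOf (Units.mk0 t ht0) = p := by
      apply orderOf_eq_prime
      · ext
        simpa using h5
      · intro h7
        exact ht1 (by simpa using congrArg Units.val h7)
    have h7 : p ∣ Nat.card (S ⧸ n)ˣ := by
      rw [← h6]
      exact orderOf_dvd_natCard _
    have h8 : Nat.card (S ⧸ n)ˣ ≤ Nat.card (S ⧸ n) :=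
      Nat.card_le_card_of_injective (fun u : (S ⧸ n)ˣ => (u : S ⧸ n)) Units.val_injective
    have h9 : 0 < Nat.card (S ⧸ n)ˣ := Nat.card_pos
    have := Nat.le_of_dvd h9 h7
    omega
  | exact N₁ N₂ N₃ f g hf hg hfg h1 h3 =>
    obtain ⟨B1, hB1⟩ := h1
    obtain ⟨B3, hB3⟩ := h3
    refine ⟨max B1 B3, fun p hp hB s m hm => ?_⟩
    have h4 : g m = 0 := hB3 p hp (lt_of_le_of_lt (le_max_right _ _) hB) s (g m) (by
      rw [← map_smul, hm, map_zero])
    obtain ⟨m', rfl⟩ := (hfg m).1 h4
    rw [hB1 p hp (lt_of_le_of_lt (le_max_left _ _) hB) s m' (by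
      apply hf
      rw [map_smul, hm, map_zero]), map_zero]

end Pool.Agent.Helper111.QI
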