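import Mathlib
import Pool.Agent.Helper111.QI.Resid

set_option autoImplicit false

namespace Pool.Agent.Helper111.QI

universe u v

open scoped IsMulCommutative

/-- permuting the geometric sum -/
theorem geom_pow_apply {V : Type v} [AddCommGroup V] (X : Module.End ℤ V) (p k : ℕ)
    (hpk : Nat.Coprime k p) (hp : 0 < p) (v : V)
    (h : (∑ l ∈ Finset.range p, X ^ l) v = 0) : (∑ l ∈ Finset.range p, (X ^ k) ^ l) v = 0 := by
  have h1 : (X ^ p) v = v := by
    have h2 : (X - 1) * (∑ l ∈ Finset.range p, X ^ l) = X ^ p - 1 := by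
      exact mul_geom_sum X p
    have h3 := DFunLike.congr_fun h2 v
    rw [Module.End.mul_apply] at h3
    rw [h, map_zero] at h3
    have h4 : (X ^ p - 1) v = (X ^ p) v - v := by
      rw [LinearMap.sub_apply, Module.End.one_apply]
    rw [h4] at h3
    exact (sub_eq_zero.1 h3.symm)
  have h2 : ∀ q : ℕ, (X ^ (p * q)) v = v := by
    intro q
    induction q with
    | zero => simp
    | succ q ih =>
      rw [mul_add, mul_one, pow_add, Module.End.mul_apply, h1, ih]
  have h3 : ∀ m : ℕ, (X ^ m) v = (X ^ (m % p)) v := by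
    intro m
    conv_lhs => rw [← Nat.mod_add_div m p]
    rw [pow_add, Module.End.mul_apply, h2]
  have h4 : (∑ l ∈ Finset.range p, (X ^ k) ^ l) v = ∑ l ∈ Finset.range p, (X ^ ((k * l) % p)) v := by
    rw [LinearMap.sum_apply]
    apply Finset.sum_congr rfl
    intro l _
    rw [← pow_mul, h3]
  rw [h4]
  rw [LinearMap.sum_apply] at h
  rw [← h]
  have hinj : Set.InjOn (fun l => (k * l) % p) (Finset.range p : Set ℕ) := by
    intro a ha b hb hab
    simp only [Finset.coe_range, Set.mem_Iio] at ha hb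
    have h6 : k * a ≡ k * b [MOD p] := hab
    have h7 : a ≡ b [MOD p] := Nat.ModEq.cancel_left_of_coprime (by rwa [Nat.coprime_comm] at hpk) h6
    exact Nat.ModEq.eq_of_lt_of_lt h7 ha hb
  have himg : (Finset.range p).image (fun l => (k * l) % p) = Finset.range p := by
    apply Finset.eq_of_subset_of_card_le
    · intro a ha
      simp only [Finset.mem_image, Finset.mem_range] at ha ⊢
      obtain ⟨l, _, rfl⟩ := ha
      exact Nat.mod_lt _ hp
    · rw [Finset.card_image_of_injOn hinj]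
  conv_rhs => rw [← himg]
  rw [Finset.sum_image hinj]

/-- Main bound for modules with a virtually commutative action. -/
theorem action_bound {G : Type u} [Group G] [Group.FG G] {V : Type v} [AddCommGroup V]
    (ρ : G →* Module.End ℤ V) (G₀ : Subgroup G) [hG₀ : G₀.FiniteIndex]
    (hcomm : ∀ g ∈ G₀, ∀ h ∈ G₀, ρ g * ρ h = ρ h * ρ g)
    (T : Finset V) (hT : AddSubgroup.closure {v : V | ∃ g : G, ∃ t ∈ T, v = ρ g t} = ⊤) :
    ∃ B : ℕ, ∀ p : ℕ, p.Prime → B < p → ∀ (x : G) (v : V),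
      (∑ l ∈ Finset.range p, (ρ x) ^ l) v = 0 → v = 0 := by
  classical
  set G₁ : Subgroup G := G₀.normalCore with hG₁
  have hfi : G₁.FiniteIndex := inferInstance
  have hle : G₁ ≤ G₀ := Subgroup.normalCore_le G₀
  have hfg : Group.FG G₁ := inferInstance
  have hfg' : G₁.FG := (Group.fg_iff_subgroup_fg G₁).1 hfg
  obtain ⟨t, ht⟩ := hfg'
  have htG₁ : ∀ g ∈ t, g ∈ G₁ := fun g hg => ht ▸ Subgroup.subset_closure hg
  let s : Set (Module.End ℤ V) := (fun g => ρ g) '' (t : Set G) ∪ (fun g => ρ g⁻¹) '' (t : Set G)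
  have hs : s.Finite := (t.finite_toSet.image _).union (t.finite_toSet.image _)
  have hsG : ∀ a ∈ s, ∃ g ∈ G₁, a = ρ g := by
    rintro a (⟨g, hg, rfl⟩ | ⟨g, hg, rfl⟩)
    · exact ⟨g, htG₁ g hg, rfl⟩
    · exact ⟨g⁻¹, G₁.inv_mem (htG₁ g hg), rfl⟩
  have hscomm : ∀ a ∈ s, ∀ b ∈ s, a * b = b * a := by
    intro a ha b hb
    obtain ⟨g, hg, rfl⟩ := hsG a ha
    obtain ⟨h, hh, rfl⟩ := hsG b hb
    exact hcomm g (hle hg) h (hle hh)
  let S := Algebra.adjoin ℤ s
  have hρS : ∀ g ∈ G₁, ρ g ∈ S := by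
    intro g hg
    have h1 : ∀ g ∈ Subgroup.closure (t : Set G), ρ g ∈ S ∧ ρ g⁻¹ ∈ S := by
      intro g hg
      induction hg using Subgroup.closure_induction with
      | mem x hx =>
        exact ⟨Algebra.subset_adjoin (Or.inl ⟨x, hx, rfl⟩),
          Algebra.subset_adjoin (Or.inr ⟨x, hx, rfl⟩)⟩
      | one => rw [inv_one, map_one]; exact ⟨S.one_mem, S.one_mem⟩
      | mul x y _ _ hx hy =>
        rw [mul_inv_rev, map_mul, map_mul]
        exact ⟨S.mul_mem hx.1 hy.1, S.mul_mem hy.2 hx.2⟩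
      | inv x _ hx => rw [inv_inv]; exact ⟨hx.2, hx.1⟩
    exact (h1 g (ht.symm ▸ hg)).1
  have hmc : IsMulCommutative S := Algebra.isMulCommutative_adjoin ℤ hscomm
  have hft : Algebra.FiniteType ℤ S := by
    have h00 : S.FG := ⟨hs.toFinset, by simp [S]⟩
    have h0 : Algebra.FiniteType ℤ S := (Subalgebra.fg_iff_finiteType S).1 h00
    convert h0
  have hmf : Module.Finite S V := by
    refine ⟨⟨Finset.image₂ (fun (q : G ⧸ G₁) (t : V) => ρ q.out t)
      (@Finset.univ _ (Fintype.ofFinite (G ⧸ G₁))) T, ?_⟩⟩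
    rw [eq_top_iff]
    intro v _
    have h1 : v ∈ AddSubgroup.closure {v : V | ∃ g : G, ∃ t ∈ T, v = ρ g t} := by
      rw [hT]; trivial
    induction h1 using AddSubgroup.closure_induction with
    | mem v hv =>
      obtain ⟨g, t, ht, rfl⟩ := hv
      have h2 : g * (g : G ⧸ G₁).out⁻¹ ∈ G₁ := by
        have h3 : (g : G ⧸ G₁).out⁻¹ * g ∈ G₁ := by
          rw [← QuotientGroup.eq]
          exact QuotientGroup.out_eq' _
        have hn : G₁.Normal := inferInstance
        exact hn.mem_comm h3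
      have h3 : ρ g t = ρ (g * (g : G ⧸ G₁).out⁻¹) (ρ (g : G ⧸ G₁).out t) := by
        rw [← Module.End.mul_apply, ← map_mul]
        simp
      rw [h3]
      have h4 : ρ (g : G ⧸ G₁).out t ∈ Submodule.span S
          ((Finset.image₂ (fun (q : G ⧸ G₁) (t : V) => ρ q.out t)
            (@Finset.univ _ (Fintype.ofFinite (G ⧸ G₁))) T : Finset V) : Set V) := by
        apply Submodule.subset_span
        rw [Finset.mem_coe, Finset.mem_image₂]
        exact ⟨_, @Finset.mem_univ _ (Fintype.ofFinite (G ⧸ G₁)) _, t, ht, rfl⟩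
      exact Submodule.smul_mem _ (⟨_, hρS _ h2⟩ : S) h4
    | zero => exact Submodule.zero_mem _
    | add a b _ _ ha hb => exact Submodule.add_mem _ (ha trivial) (hb trivial)
    | neg a _ ha => exact Submodule.neg_mem _ (ha trivial)
  obtain ⟨B, hB⟩ := module_bound S V hmf
  refine ⟨max B G₁.index, fun p hp hBp x v hv => ?_⟩
  have h1 : x ^ G₁.index ∈ G₁ := Subgroup.pow_index_mem G₁ x
  have h2 : ρ (x ^ G₁.index) ∈ S := hρS _ h1
  have h3 : G₁.index ≠ 0 := hfi.index_ne_zero
  have hcop : Nat.Coprime G₁.index p := by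
    rw [Nat.coprime_comm]
    apply (Nat.Prime.coprime_iff_not_dvd hp).2
    intro h4
    have := Nat.le_of_dvd (Nat.pos_of_ne_zero h3) h4
    have := le_max_right B G₁.index
    omega
  have h4 := geom_pow_apply (ρ x) p G₁.index hcop hp.pos v hv
  rw [← map_pow] at h4
  apply hB p hp (lt_of_le_of_lt (le_max_left _ _) hBp) ⟨_, h2⟩ v
  have h5 : ((∑ l ∈ Finset.range p, (⟨_, h2⟩ : S) ^ l : S) : Module.End ℤ V) =
      ∑ l ∈ Finset.range p, ρ (x ^ G₁.index) ^ l := by
    rw [AddSubmonoidClass.coe_finset_sum]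
    rfl
  rw [← h5] at h4
  exact h4

end Pool.Agent.Helper111.QI
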