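import Mathlib
import Pool.Agent.Helper111.QI.Resid

set_option autoImplicit false

namespace Pool.Agent.Helper111.QI

section InI

variable {R : Type*} [CommRing R] {n : ℕ}

/-- all entries of the matrix lie in the ideal -/
def InI (I : Ideal R) (A : Matrix (Fin n) (Fin n) R) : Prop := ∀ i j, A i j ∈ I

theorem InI.mul_right {I : Ideal R} {A : Matrix (Fin n) (Fin n) R} (hA : InI I A)
    (B : Matrix (Fin n) (Fin n) R) : InI I (A * B) := by
  intro i j
  rw [Matrix.mul_apply]
  exact I.sum_mem (fun l _ => I.mul_mem_right _ (hA i l))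

theorem InI.mul_left {I : Ideal R} {A : Matrix (Fin n) (Fin n) R} (hA : InI I A)
    (B : Matrix (Fin n) (Fin n) R) : InI I (B * A) := by
  intro i j
  rw [Matrix.mul_apply]
  exact I.sum_mem (fun l _ => I.mul_mem_left _ (hA l j))

theorem InI.mul {I J : Ideal R} {A B : Matrix (Fin n) (Fin n) R} (hA : InI I A) (hB : InI J B) :
    InI (I * J) (A * B) := by
  intro i j
  rw [Matrix.mul_apply]
  exact (I * J).sum_mem (fun l _ => Ideal.mul_mem_mul (hA i l) (hB l j))

theorem InI.add {I : Ideal R} {A B : Matrix (Fin n) (Fin n) R} (hA : InI I A) (hB : InI I B) :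
    InI I (A + B) := fun i j => I.add_mem (hA i j) (hB i j)

theorem InI.sub {I : Ideal R} {A B : Matrix (Fin n) (Fin n) R} (hA : InI I A) (hB : InI I B) :
    InI I (A - B) := fun i j => I.sub_mem (hA i j) (hB i j)

theorem InI.mono {I J : Ideal R} (h : I ≤ J) {A : Matrix (Fin n) (Fin n) R} (hA : InI I A) :
    InI J A := fun i j => h (hA i j)

theorem InI.zero {I : Ideal R} : InI I (0 : Matrix (Fin n) (Fin n) R) := fun _ _ => I.zero_mem

theorem InI.sum {I : Ideal R} {ι : Type*} (s : Finset ι) (f : ι → Matrix (Fin n) (Fin n) R)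
    (h : ∀ i ∈ s, InI I (f i)) : InI I (∑ i ∈ s, f i) := by
  classical
  induction s using Finset.induction_on with
  | empty => simpa using InI.zero
  | insert a s ha ih =>
    rw [Finset.sum_insert ha]
    exact (h a (Finset.mem_insert_self _ _)).add
      (ih (fun i hi => h i (Finset.mem_insert_of_mem hi)))

theorem InI.pow_sub_one {I : Ideal R} {A : Matrix (Fin n) (Fin n) R} (hA : InI I (A - 1))
    (c : ℕ) : InI I (A ^ c - 1) := by
  rw [← mul_geom_sum]
  exact hA.mul_right _

theorem InI.step {m : Ideal R} (k q : ℕ) (hq : (q : R) ∈ m) {A : Matrix (Fin n) (Fin n) R}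
    (hA : InI (m ^ (k + 1)) (A - 1)) : InI (m ^ (k + 2)) (A ^ q - 1) := by
  rw [← mul_geom_sum]
  have h1 : InI m (∑ i ∈ Finset.range q, A ^ i) := by
    have h2 : (∑ i ∈ Finset.range q, A ^ i) =
        (∑ i ∈ Finset.range q, (A ^ i - 1)) + (q : Matrix (Fin n) (Fin n) R) := by
      rw [Finset.sum_sub_distrib]
      simp
    rw [h2]
    apply InI.add
    · apply InI.sum
      intro i _
      apply InI.pow_sub_one
      exact hA.mono (Ideal.pow_le_self (Nat.succ_ne_zero k))
    · intro i j
      have h3 : (q : Matrix (Fin n) (Fin n) R) = Matrix.diagonal (fun _ => (q : R)) :=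
        (Matrix.diagonal_natCast q).symm
      rw [h3, Matrix.diagonal_apply]
      split_ifs
      · exact hq
      · exact m.zero_mem
  have h3 := hA.mul h1
  rwa [← pow_succ] at h3

end InI

theorem exists_inverse (p K : ℕ) (hp : 0 < p) (hK : 0 < K) (h : Nat.Coprime p K) :
    ∃ a c : ℕ, p * a = 1 + K * c := by
  rcases Nat.lt_or_ge 1 K with h1 | h1
  · obtain ⟨a, _, ha⟩ := Nat.exists_mul_mod_eq_one_of_coprime h h1
    refine ⟨a, p * a / K, ?_⟩
    rw [← ha]
    exact (Nat.mod_add_div (p * a) K).symm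
  · have h2 : K = 1 := by omega
    exact ⟨1, p - 1, by rw [h2]; omega⟩

/-- Groups embeddable in matrices over a finitely generated domain have unique `p`-th roots for
all large primes `p`. -/
theorem domain_bound {G : Type*} [Group G] (R : Type*) [CommRing R] [IsDomain R]
    [Algebra.FiniteType ℤ R] {n : ℕ} (ψ : G →* Matrix (Fin n) (Fin n) R)
    (hψ : Function.Injective ψ) :
    ∃ B : ℕ, ∀ p : ℕ, p.Prime → B < p → ∀ g h : G, g ^ p = h ^ p → g = h := by
  classical
  have hNoeth : IsNoetherianRing R := Algebra.FiniteType.isNoetherianRing ℤ R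
  obtain ⟨m, hm⟩ := Ideal.exists_maximal R
  have hfin : Finite (R ⧸ m) := residue_finite R m
  let F : Field (R ⧸ m) := Ideal.Quotient.field m
  have hft : Fintype (R ⧸ m) := Fintype.ofFinite _
  set q := Nat.card (R ⧸ m) with hq
  have hqm : (q : R) ∈ m := by
    rw [← Ideal.Quotient.eq_zero_iff_mem, map_natCast, hq, Nat.card_eq_fintype_card]
    exact Nat.cast_card_eq_zero _
  have hq0 : 0 < q := Nat.card_pos
  set N := Nat.card (Matrix (Fin n) (Fin n) (R ⧸ m))ˣ with hN
  have hN0 : 0 < N := Nat.card_pos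
  have hkey : ∀ (g : G) (k : ℕ), InI (m ^ (k + 1)) ((ψ g) ^ (N * q ^ k) - 1) := by
    intro g k
    induction k with
    | zero =>
      rw [pow_zero, mul_one, zero_add, pow_one]
      let π : Matrix (Fin n) (Fin n) R →+* Matrix (Fin n) (Fin n) (R ⧸ m) :=
        (Ideal.Quotient.mk m).mapMatrix
      have h1 : π ((ψ g) ^ N) = 1 := by
        let u : (Matrix (Fin n) (Fin n) (R ⧸ m))ˣ :=
          Units.map ((π : _ →* _).comp ψ) (toUnits g)
        have h2 : u ^ N = 1 := pow_card_eq_one'
        have h3 := congrArg Units.val h2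
        rw [Units.val_pow_eq_pow_val, Units.val_one] at h3
        rw [map_pow]
        exact h3
      intro i j
      rw [← Ideal.Quotient.eq_zero_iff_mem]
      have h2 := congrFun (congrFun (show π ((ψ g) ^ N - 1) = 0 by
        rw [map_sub, h1, map_one, sub_self]) i) j
      exact h2
    | succ k ih =>
      have h1 := InI.step k q hqm ih
      rw [← pow_mul] at h1
      rw [pow_succ q k, ← mul_assoc]
      exact h1
  refine ⟨max N q, fun p hp hB g h hgh => ?_⟩
  apply hψ
  have hclose : ∀ k : ℕ, InI (m ^ (k + 1)) (ψ g - ψ h) := by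
    intro k
    have hcop : Nat.Coprime p (N * q ^ k) := by
      rw [hp.coprime_iff_not_dvd]
      intro h1
      rcases (Nat.Prime.dvd_mul hp).1 h1 with h2 | h2
      · have := Nat.le_of_dvd hN0 h2
        have := le_max_left N q
        omega
      · have h3 := hp.dvd_of_dvd_pow h2
        have := Nat.le_of_dvd hq0 h3
        have := le_max_right N q
        omega
    obtain ⟨a, c, hac⟩ := exists_inverse p (N * q ^ k) hp.pos (by positivity) hcop
    have h1 : ∀ x : G, InI (m ^ (k + 1)) ((ψ x) ^ (p * a) - ψ x) := by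
      intro x
      rw [hac, pow_add (ψ x), pow_one (ψ x), pow_mul (ψ x)]
      have h2 := ((hkey x k).pow_sub_one c).mul_left (ψ x)
      rwa [mul_sub, mul_one] at h2
    have h2 : (ψ g) ^ (p * a) = (ψ h) ^ (p * a) := by
      rw [← map_pow, ← map_pow, pow_mul, pow_mul, hgh]
    have h3 := (h1 h).sub (h1 g)
    rw [h2] at h3
    have h4 : ψ h ^ (p * a) - ψ h - (ψ h ^ (p * a) - ψ g) = ψ g - ψ h := by abel
    rwa [h4] at h3
  have hbot : ⨅ i : ℕ, m ^ i = ⊥ := Ideal.iInf_pow_eq_bot_of_isDomain m hm.ne_top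
  ext i j
  have h1 : (ψ g - ψ h) i j ∈ ⨅ i : ℕ, m ^ i := by
    rw [Ideal.mem_iInf]
    intro k
    rcases Nat.eq_zero_or_pos k with h0 | h0
    · rw [h0, pow_zero, Ideal.one_eq_top]
      trivial
    · obtain ⟨k', rfl⟩ : ∃ k', k = k' + 1 := ⟨k - 1, by omega⟩
      exact hclose k' i j
  rw [hbot, Ideal.mem_bot, Matrix.sub_apply, sub_eq_zero] at h1
  exact h1

/-- Finitely generated linear groups have unique `p`-th roots for all large primes `p`. -/
theorem linear_bound {G : Type*} [Group G] [Group.FG G] {F : Type*} [Field F] {n : ℕ}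
    (φ : G →* GL (Fin n) F) (hφ : Function.Injective φ) :
    ∃ B : ℕ, ∀ p : ℕ, p.Prime → B < p → ∀ g h : G, g ^ p = h ^ p → g = h := by
  classical
  obtain ⟨t, ht⟩ := (Group.fg_def.1 (inferInstance : Group.FG G))
  let E : Set F := ⋃ g ∈ t, Set.range (fun ij : Fin n × Fin n => (φ g : Matrix (Fin n) (Fin n) F) ij.1 ij.2) ∪
    Set.range (fun ij : Fin n × Fin n => (φ g⁻¹ : Matrix (Fin n) (Fin n) F) ij.1 ij.2)
  have hE : E.Finite := by
    apply Set.Finite.biUnion t.finite_toSet
    intro g _
    exact (Set.finite_range _).union (Set.finite_range _)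
  let R := Algebra.adjoin ℤ E
  have hft : Algebra.FiniteType ℤ R := by
    have h00 : R.FG := ⟨hE.toFinset, by simp [R]⟩
    have h0 : Algebra.FiniteType ℤ R := (Subalgebra.fg_iff_finiteType R).1 h00
    convert h0
  have hentry : ∀ g : G, ∀ i j, (φ g : Matrix (Fin n) (Fin n) F) i j ∈ R := by
    have h1 : ∀ g ∈ Subgroup.closure (t : Set G), (∀ i j, (φ g : Matrix (Fin n) (Fin n) F) i j ∈ R) ∧
        (∀ i j, (φ g⁻¹ : Matrix (Fin n) (Fin n) F) i j ∈ R) := by
      intro g hg
      induction hg using Subgroup.closure_induction with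
      | mem x hx =>
        constructor
        · intro i j
          apply Algebra.subset_adjoin
          simp only [E, Set.mem_iUnion]
          exact ⟨x, hx, Or.inl ⟨(i, j), rfl⟩⟩
        · intro i j
          apply Algebra.subset_adjoin
          simp only [E, Set.mem_iUnion]
          exact ⟨x, hx, Or.inr ⟨(i, j), rfl⟩⟩
      | one =>
        rw [inv_one, map_one]
        have h2 : ∀ i j : Fin n, ((1 : GL (Fin n) F) : Matrix (Fin n) (Fin n) F) i j ∈ R := by
          intro i j
          rw [Units.val_one, Matrix.one_apply]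
          split_ifs
          · exact R.one_mem
          · exact R.zero_mem
        exact ⟨h2, h2⟩
      | mul x y _ _ hx hy =>
        have h2 : ∀ a b : GL (Fin n) F, (∀ i j, (a : Matrix (Fin n) (Fin n) F) i j ∈ R) →
            (∀ i j, (b : Matrix (Fin n) (Fin n) F) i j ∈ R) → ∀ i j, ((a * b : GL (Fin n) F) :
              Matrix (Fin n) (Fin n) F) i j ∈ R := by
          intro a b ha hb i j
          rw [Units.val_mul, Matrix.mul_apply]
          exact R.sum_mem (fun l _ => R.mul_mem (ha i l) (hb l j))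
        rw [mul_inv_rev, map_mul, map_mul]
        exact ⟨h2 _ _ hx.1 hy.1, h2 _ _ hy.2 hx.2⟩
      | inv x _ hx => rw [inv_inv]; exact ⟨hx.2, hx.1⟩
    intro g
    exact (h1 g (ht ▸ Subgroup.mem_top g)).1
  let ψ : G →* Matrix (Fin n) (Fin n) R :=
    { toFun := fun g => Matrix.of (fun i j => (⟨(φ g : Matrix (Fin n) (Fin n) F) i j, hentry g i j⟩ : R))
      map_one' := by
        ext i j
        simp only [Matrix.of_apply, map_one, Units.val_one, Matrix.one_apply]
        split_ifs <;> rfl
      map_mul' := by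
        intro x y
        ext i j
        simp only [Matrix.of_apply, map_mul, Units.val_mul, Matrix.mul_apply]
        simp }
  refine domain_bound R ψ ?_
  intro g h hgh
  apply hφ
  ext i j
  have h1 := congrFun (congrFun hgh i) j
  exact congrArg Subtype.val h1

end Pool.Agent.Helper111.QI
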