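import Mathlib
import Pool.Agent.Helper111.QI.Factor

set_option autoImplicit false

namespace Pool.Agent.Helper111.QI

open scoped IsMulCommutative commutatorElement

section ConjAct

variable {Q : Type*} [Group Q] (M : Subgroup Q) [M.Normal] [IsMulCommutative M]

/-- conjugation on an abelian normal subgroup -/
noncomputable def conjρ : Q →* Module.End ℤ (Additive M) where
  toFun x := (MonoidHom.toAdditive (MulAut.conjNormal (H := M) x).toMonoidHom).toIntLinearMap
  map_one' := by
    ext v
    simp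
  map_mul' x y := by
    ext v
    simp [mul_assoc]

theorem conjρ_apply (x : Q) (m : M) :
    (((conjρ M x) (Additive.ofMul m)).toMul : Q) = x * m * x⁻¹ := by
  simp [conjρ]

theorem conjρ_nrm (x : Q) (m : M) (p : ℕ) :
    (((∑ l ∈ Finset.range p, (conjρ M x⁻¹) ^ l) (Additive.ofMul m)).toMul : Q) =
      nrm p (m : Q) x := by
  induction p with
  | zero => simp [nrm_zero]
  | succ p ih =>
    rw [Finset.sum_range_succ, nrm_succ, ← ih, LinearMap.add_apply, toMul_add,
      Subgroup.coe_mul, ← map_pow, conjρ_apply, inv_pow, inv_inv]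

theorem conjρ_nrm_eq_one (x : Q) (m : M) (p : ℕ) (h : nrm p (m : Q) x = 1) :
    (∑ l ∈ Finset.range p, (conjρ M x⁻¹) ^ l) (Additive.ofMul m) = 0 := by
  have h1 := conjρ_nrm M x m p
  rw [h] at h1
  have h2 : ((∑ l ∈ Finset.range p, (conjρ M x⁻¹) ^ l) (Additive.ofMul m)).toMul = 1 :=
    Subtype.ext h1
  exact h2

/-- type (A) factors -/
theorem factorA [Group.FG Q] (Q₀ : Subgroup Q) [Q₀.FiniteIndex]
    (hc : ∀ g ∈ Q₀, ∀ h ∈ Q₀, ∀ m ∈ M, (g * h) * m * (g * h)⁻¹ = (h * g) * m * (h * g)⁻¹)
    (T : Finset Q) (hT : Subgroup.normalClosure (T : Set Q) = M) :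
    ∃ B : ℕ, ∀ p : ℕ, p.Prime → B < p → ∀ m ∈ M, ∀ x : Q, nrm p m x = 1 → m = 1 := by
  classical
  have hTM : ∀ t ∈ T, t ∈ M := fun t ht => hT ▸ Subgroup.subset_normalClosure ht
  obtain ⟨B, hB⟩ := action_bound (conjρ M) Q₀ (by
    intro g hg h hh
    rw [← map_mul, ← map_mul]
    ext v
    have := hc g hg h hh (v.toMul : Q) v.toMul.2
    have h1 := conjρ_apply M (g * h) v.toMul
    have h2 := conjρ_apply M (h * g) v.toMul
    rw [this, ← h2] at h1
    exact h1)
    (T.attach.image (fun t => Additive.ofMul (⟨t.1, hTM t.1 t.2⟩ : M))) (by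
    rw [eq_top_iff]
    intro v _
    have h1 : ∀ y : Q, ∀ hy : y ∈ Subgroup.normalClosure (T : Set Q), ∀ hyM : y ∈ M,
        Additive.ofMul (⟨y, hyM⟩ : M) ∈ AddSubgroup.closure {v : Additive M | ∃ g : Q,
          ∃ t ∈ (T.attach.image (fun t => Additive.ofMul (⟨t.1, hTM t.1 t.2⟩ : M))),
            v = conjρ M g t} := by
      intro y hy
      unfold Subgroup.normalClosure at hy
      induction hy using Subgroup.closure_induction with
      | mem y hy =>
        intro hyM
        rw [Group.mem_conjugatesOfSet_iff] at hy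
        obtain ⟨t, ht, hty⟩ := hy
        obtain ⟨c, rfl⟩ := isConj_iff.1 hty
        apply AddSubgroup.subset_closure
        refine ⟨c, Additive.ofMul (⟨t, hTM t ht⟩ : M), ?_, ?_⟩
        · rw [Finset.mem_image]
          exact ⟨⟨t, ht⟩, Finset.mem_attach _ _, rfl⟩
        · have := conjρ_apply M c ⟨t, hTM t ht⟩
          apply Additive.toMul.injective
          exact Subtype.ext this.symm
      | one => intro _; exact AddSubgroup.zero_mem _
      | mul a b ha hb iha ihb =>
        intro hab
        have haM : a ∈ M := hT ▸ ha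
        have hbM : b ∈ M := hT ▸ hb
        exact AddSubgroup.add_mem _ (iha haM) (ihb hbM)
      | inv a ha iha =>
        intro hab
        have haM : a ∈ M := hT ▸ ha
        exact AddSubgroup.neg_mem _ (iha haM)
    exact h1 v.toMul (hT.symm ▸ v.toMul.2) v.toMul.2)
  refine ⟨B, fun p hp hBp m hm x hx => ?_⟩
  have h1 := conjρ_nrm_eq_one M x ⟨m, hm⟩ p hx
  have h2 := hB p hp hBp x⁻¹ _ h1
  have h3 : (⟨m, hm⟩ : M) = 1 := h2
  exact congrArg Subtype.val h3

end ConjAct

/-- Bezout identity over `ℤ` for the cyclotomic polynomial of prime order -/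
theorem poly_bound (p : ℕ) (hp : p.Prime) (f : Polynomial ℤ) (hf : f ≠ 0)
    (hd : f.natDegree < p - 1) :
    ∃ (a b : Polynomial ℤ) (c : ℤ), c ≠ 0 ∧
      a * (∑ l ∈ Finset.range p, Polynomial.X ^ l) + b * f = Polynomial.C c := by
  have hp' : Fact p.Prime := ⟨hp⟩
  have hirr := Polynomial.cyclotomic.irreducible_rat hp.pos
  have hf' : f.map (Int.castRingHom ℚ) ≠ 0 := by
    rw [Ne, Polynomial.map_eq_zero_iff (RingHom.injective_int _)]
    exact hf
  have hcop : IsCoprime (Polynomial.cyclotomic p ℚ) (f.map (Int.castRingHom ℚ)) := by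
    rw [hirr.coprime_iff_not_dvd]
    intro h
    have h1 := Polynomial.natDegree_le_of_dvd h hf'
    rw [Polynomial.natDegree_cyclotomic, Nat.totient_prime hp] at h1
    have h2 := Polynomial.natDegree_map_le (f := Int.castRingHom ℚ) (p := f)
    omega
  obtain ⟨a, b, hab⟩ := hcop
  obtain ⟨s, hs, hs1⟩ := IsLocalization.integerNormalization_spec (nonZeroDivisors ℤ) a
  obtain ⟨t, ht, ht1⟩ := IsLocalization.integerNormalization_spec (nonZeroDivisors ℤ) b
  set A := IsLocalization.integerNormalization (nonZeroDivisors ℤ) a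
  set B := IsLocalization.integerNormalization (nonZeroDivisors ℤ) b
  refine ⟨Polynomial.C t * A, Polynomial.C s * B, s * t,
    mul_ne_zero (nonZeroDivisors.ne_zero hs) (nonZeroDivisors.ne_zero ht), ?_⟩
  have hinj : Function.Injective (Polynomial.map (Int.castRingHom ℚ)) :=
    Polynomial.map_injective _ (RingHom.injective_int _)
  apply hinj
  have halg : algebraMap ℤ ℚ = Int.castRingHom ℚ := rfl
  rw [halg] at hs1 ht1
  simp only [Polynomial.map_add, Polynomial.map_mul, Polynomial.map_C, Polynomial.map_sum,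
    Polynomial.map_pow, Polynomial.map_X, map_mul]
  rw [hs1, ht1]
  rw [Polynomial.cyclotomic_prime] at hab
  have h3 : (s • a : Polynomial ℚ) = Polynomial.C (Int.castRingHom ℚ s) * a := by
    rw [zsmul_eq_mul]
    simp
  have h4 : (t • b : Polynomial ℚ) = Polynomial.C (Int.castRingHom ℚ t) * b := by
    rw [zsmul_eq_mul]
    simp
  rw [h3, h4]
  linear_combination (Polynomial.C (Int.castRingHom ℚ s) * Polynomial.C (Int.castRingHom ℚ t)) * hab

theorem list_prod_coe {Q : Type*} [Group Q] (M : Subgroup Q) (l : List M) :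
    ((l.prod : M) : Q) = (l.map (fun m => (m : Q))).prod := by
  induction l with
  | nil => rfl
  | cons a l ih => simp

section ConjAct2

variable {Q : Type*} [Group Q] (M : Subgroup Q) [M.Normal] [IsMulCommutative M]

/-- type (C) factors -/
theorem factorC (d : ℕ) (htf : ∀ m ∈ M, ∀ k : ℕ, 0 < k → m ^ k = 1 → m = 1)
    (h : ∀ m ∈ M, ∀ x : Q, ∃ a : ℕ → ℤ, (∃ i ≤ d, a i ≠ 0) ∧
      ((List.range (d + 1)).map (fun i => x ^ i * m ^ (a i) * (x ^ i)⁻¹)).prod = 1) :
    ∃ B : ℕ, ∀ p : ℕ, p.Prime → B < p → ∀ m ∈ M, ∀ x : Q, nrm p m x = 1 → m = 1 := by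
  classical
  refine ⟨d + 1, fun p hp hBp m hm x hx => ?_⟩
  have h1 := conjρ_nrm_eq_one M x ⟨m, hm⟩ p hx
  obtain ⟨a, ⟨i, hi, hai⟩, hprod⟩ := h m hm x⁻¹
  set X : Module.End ℤ (Additive M) := conjρ M x⁻¹ with hX
  set v : Additive M := Additive.ofMul (⟨m, hm⟩ : M) with hv
  let f : Polynomial ℤ := ∑ i ∈ Finset.range (d + 1), Polynomial.C (a i) * Polynomial.X ^ i
  have hfcoeff : ∀ j ≤ d, f.coeff j = a j := by
    intro j hj
    simp only [f, Polynomial.finsetSum_coeff, Polynomial.coeff_C_mul, Polynomial.coeff_X_pow]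
    rw [Finset.sum_eq_single j]
    · simp
    · intro b _ hbj
      simp [hbj.symm]
    · intro hj'
      exfalso
      apply hj'
      rw [Finset.mem_range]
      omega
  have hf0 : f ≠ 0 := by
    intro h2
    apply hai
    rw [← hfcoeff i hi, h2, Polynomial.coeff_zero]
  have hfd : f.natDegree ≤ d := by
    apply Polynomial.natDegree_sum_le_of_forall_le
    intro j hj
    rw [Finset.mem_range] at hj
    exact (Polynomial.natDegree_C_mul_X_pow_le _ _).trans (by omega)
  obtain ⟨A, B, c, hc, hAB⟩ := poly_bound p hp f hf0 (by omega)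
  have h2 : (Polynomial.aeval X f) v = 0 := by
    have h3 : (Polynomial.aeval X f) v = ∑ i ∈ Finset.range (d + 1), a i • (X ^ i) v := by
      simp only [f, map_sum, map_mul, Polynomial.aeval_C, Polynomial.aeval_X, map_pow]
      rw [LinearMap.sum_apply]
      apply Finset.sum_congr rfl
      intro j _
      rw [Module.End.mul_apply]
      simp
    rw [h3]
    have h4 : (∑ i ∈ Finset.range (d + 1), a i • (X ^ i) v) =
        ((List.range (d + 1)).map (fun i => a i • (X ^ i) v)).sum := by
      rw [← List.sum_toFinset _ (List.nodup_range)]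
      rw [List.toFinset_range]
    rw [h4]
    have h5 : ∀ l : List ℕ, (((l.map (fun i => a i • (X ^ i) v)).sum).toMul : Q) =
        (l.map (fun i => x⁻¹ ^ i * m ^ (a i) * (x⁻¹ ^ i)⁻¹)).prod := by
      intro l
      induction l with
      | nil => rfl
      | cons b l ih =>
        rw [List.map_cons, List.sum_cons, List.map_cons, List.prod_cons, toMul_add,
          Subgroup.coe_mul, ih]
        congr 1
        rw [toMul_zsmul, hX, ← map_pow, hv, Subgroup.coe_zpow, conjρ_apply]
        change (x⁻¹ ^ b * m * (x⁻¹ ^ b)⁻¹) ^ a b = _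
        rw [conj_zpow]
    have h6 := h5 (List.range (d + 1))
    rw [hprod] at h6
    have h7 : ((List.range (d + 1)).map (fun i => a i • (X ^ i) v)).sum.toMul = 1 :=
      Subtype.ext h6
    exact h7
  have h3 : (c • v) = 0 := by
    have h4 := congrArg (fun P => (Polynomial.aeval X P) v) hAB
    simp only [map_add, map_mul, map_sum, map_pow, Polynomial.aeval_X, Polynomial.aeval_C] at h4
    rw [LinearMap.add_apply, Module.End.mul_apply, Module.End.mul_apply, h1, h2, map_zero,
      map_zero, add_zero] at h4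
    rw [h4]
    simp
  have h4 : m ^ c = 1 := by
    have h5 : ((⟨m, hm⟩ : M) ^ c) = 1 := h3
    exact congrArg Subtype.val h5
  have h5 : m ^ c.natAbs = 1 := by
    rcases Int.natAbs_eq c with h6 | h6
    · rw [h6, zpow_natCast] at h4
      exact h4
    · rw [h6, zpow_neg, zpow_natCast, inv_eq_one] at h4
      exact h4
  exact htf m hm _ (Int.natAbs_pos.2 hc) h5

end ConjAct2

end Pool.Agent.Helper111.QI
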