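import Mathlib
import Pool.Agent.Helper111.QI.Series
import Pool.Agent.Helper111.QI.Linear

set_option autoImplicit false

namespace Pool.Agent.Helper111.QI

open scoped commutatorElement

/-- `M/N` is finitely generated as a normal subgroup of `G/N`, and a subgroup of finite index acts
on `M/N` through a commutative group. -/
def FactorA {G : Type*} [Group G] (N M : Subgroup G) : Prop :=
  ∃ G₀ : Subgroup G, G₀.FiniteIndex ∧ ⁅⁅G₀, G₀⁆, M⁆ ≤ N ∧
    ∃ T : Finset G, M = N ⊔ Subgroup.normalClosure (T : Set G)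

/-- `M/N` is torsion-free and each element of `G` acts on `M/N` algebraically, of degree at most
`d`. -/
def FactorC {G : Type*} [Group G] (N M : Subgroup G) : Prop :=
  (∀ m ∈ M, ∀ k : ℕ, 0 < k → m ^ k ∈ N → m ∈ N) ∧
    ∃ d : ℕ, ∀ m ∈ M, ∀ x : G, ∃ a : ℕ → ℤ, (∃ i ≤ d, a i ≠ 0) ∧
      ((List.range (d + 1)).map (fun i => x ^ i * m ^ (a i) * (x ^ i)⁻¹)).prod ∈ N

theorem mk_comm {G : Type*} [Group G] (N M : Subgroup G) [N.Normal] (h : ⁅M, M⁆ ≤ N) :
    IsMulCommutative (M.map (QuotientGroup.mk' N)) := by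
  constructor
  constructor
  rintro ⟨_, a, ha, rfl⟩ ⟨_, b, hb, rfl⟩
  apply Subtype.ext
  change (QuotientGroup.mk' N a) * (QuotientGroup.mk' N b) =
    (QuotientGroup.mk' N b) * (QuotientGroup.mk' N a)
  rw [← commutatorElement_eq_one_iff_mul_comm, ← map_commutatorElement]
  rw [QuotientGroup.mk'_apply, QuotientGroup.eq_one_iff]
  exact h (Subgroup.commutator_mem_commutator ha hb)

theorem factor_step {G : Type*} [Group G] [Group.FG G] (N M : Subgroup G) [N.Normal] [M.Normal]
    (hab : ⁅M, M⁆ ≤ N) (h : FactorA N M ∨ FactorC N M) :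
    ∃ B : ℕ, ∀ p : ℕ, p.Prime → B < p → ∀ m ∈ M, ∀ x : G, nrm p m x ∈ N → m ∈ N := by
  classical
  have hcm : IsMulCommutative (M.map (QuotientGroup.mk' N)) := mk_comm N M hab
  have hMn : (M.map (QuotientGroup.mk' N)).Normal :=
    Subgroup.Normal.map inferInstance _ (QuotientGroup.mk'_surjective N)
  have hfinal : (∃ B : ℕ, ∀ p : ℕ, p.Prime → B < p → ∀ m ∈ M.map (QuotientGroup.mk' N),
      ∀ x : G ⧸ N, nrm p m x = 1 → m = 1) →
      ∃ B : ℕ, ∀ p : ℕ, p.Prime → B < p → ∀ m ∈ M, ∀ x : G, nrm p m x ∈ N → m ∈ N := by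
    rintro ⟨B, hB⟩
    refine ⟨B, fun p hp hBp m hm x hx => ?_⟩
    have h1 := hB p hp hBp (QuotientGroup.mk' N m) (Subgroup.mem_map_of_mem _ hm)
      (QuotientGroup.mk' N x) (by
        rw [← map_nrm, QuotientGroup.mk'_apply, QuotientGroup.eq_one_iff]
        exact hx)
    rwa [QuotientGroup.mk'_apply, QuotientGroup.eq_one_iff] at h1
  apply hfinal
  rcases h with ⟨G₀, hfi, hc, T, hT⟩ | ⟨htf, d, hd⟩
  · have hfg : Group.FG (G ⧸ N) := inferInstance
    have hfi' : (G₀.map (QuotientGroup.mk' N)).FiniteIndex := by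
      constructor
      intro h0
      have h1 := Subgroup.index_map_dvd (H := G₀) (QuotientGroup.mk'_surjective N)
      rw [h0, zero_dvd_iff] at h1
      exact hfi.index_ne_zero h1
    apply factorA (M.map (QuotientGroup.mk' N)) (G₀.map (QuotientGroup.mk' N)) ?_
      (T.image (QuotientGroup.mk' N)) ?_
    · rintro _ ⟨g, hg, rfl⟩ _ ⟨h, hh, rfl⟩ _ ⟨m, hm, rfl⟩
      simp only [← map_mul, ← map_inv]
      rw [QuotientGroup.mk'_apply, QuotientGroup.mk'_apply, QuotientGroup.eq]
      have h1 : ⁅⁅g⁻¹, h⁻¹⁆, m⁆ ∈ N := hc (Subgroup.commutator_mem_commutator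
        (Subgroup.commutator_mem_commutator (G₀.inv_mem hg) (G₀.inv_mem hh)) hm)
      have h2 : (g * h * m * (g * h)⁻¹)⁻¹ * (h * g * m * (h * g)⁻¹) =
          (g * h) * m⁻¹ * ⁅⁅h⁻¹, g⁻¹⁆, m⁆ * ((g * h) * m⁻¹)⁻¹ := by
        simp only [commutatorElement_def]
        group
      have h3 : ⁅⁅h⁻¹, g⁻¹⁆, m⁆ ∈ N := hc (Subgroup.commutator_mem_commutator
        (Subgroup.commutator_mem_commutator (G₀.inv_mem hh) (G₀.inv_mem hg)) hm)
      rw [h2]
      exact (inferInstance : N.Normal).conj_mem _ h3 _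
    · rw [Finset.coe_image, ← Subgroup.map_normalClosure _ _ (QuotientGroup.mk'_surjective N)]
      conv_rhs => rw [hT]
      rw [Subgroup.map_sup, QuotientGroup.map_mk'_self, bot_sup_eq]
  · apply factorC (M.map (QuotientGroup.mk' N)) d ?_ ?_
    · rintro _ ⟨m, hm, rfl⟩ k hk hmk
      rw [← map_pow, QuotientGroup.mk'_apply, QuotientGroup.eq_one_iff] at hmk
      rw [QuotientGroup.mk'_apply, QuotientGroup.eq_one_iff]
      exact htf m hm k hk hmk
    · rintro _ ⟨m, hm, rfl⟩ x
      obtain ⟨x, rfl⟩ := QuotientGroup.mk'_surjective N x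
      obtain ⟨a, ha, hprod⟩ := hd m hm x
      refine ⟨a, ha, ?_⟩
      have h1 : (((List.range (d + 1)).map (fun i => (QuotientGroup.mk' N x) ^ i *
          (QuotientGroup.mk' N m) ^ (a i) * ((QuotientGroup.mk' N x) ^ i)⁻¹)).prod) =
          QuotientGroup.mk' N
            ((List.range (d + 1)).map (fun i => x ^ i * m ^ (a i) * (x ^ i)⁻¹)).prod := by
        rw [map_list_prod, List.map_map]
        congr 1
      rw [h1, QuotientGroup.mk'_apply, QuotientGroup.eq_one_iff]
      exact hprod

/-- the case of a finite quotient -/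
theorem finite_step {G : Type*} [Group G] (N : Subgroup G) [N.Normal] [hN : N.FiniteIndex] :
    ∃ B : ℕ, ∀ p : ℕ, p.Prime → B < p → ∀ z x : G, nrm p z x ∈ N → z ∈ N := by
  refine ⟨N.index, fun p hp hBp z x hx => ?_⟩
  have hcop : Nat.Coprime p (Nat.card (G ⧸ N)) := by
    rw [hp.coprime_iff_not_dvd]
    intro h1
    have h2 : 0 < N.index := Nat.pos_of_ne_zero hN.index_ne_zero
    have h3 := Nat.le_of_dvd h2 h1
    omega
  have h1 : nrm p (QuotientGroup.mk' N z) (QuotientGroup.mk' N x) = 1 := by
    rw [← map_nrm, QuotientGroup.mk'_apply, QuotientGroup.eq_one_iff]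
    exact hx
  rw [nrm_eq] at h1
  have h2 : (QuotientGroup.mk' N z * (QuotientGroup.mk' N x)⁻¹) ^ p =
      ((QuotientGroup.mk' N x)⁻¹) ^ p := by
    rw [inv_pow]
    exact eq_inv_of_mul_eq_one_left h1
  have h3 := (Nat.Coprime.pow_left_bijective (Nat.coprime_comm.1 hcop)).injective h2
  have h4 : QuotientGroup.mk' N z = 1 := by simpa using h3
  rwa [QuotientGroup.mk'_apply, QuotientGroup.eq_one_iff] at h4

/-- Unique `p`-th roots for all large primes, for groups with a suitable series. -/
theorem series_bound {G : Type*} [Group G] [Group.FG G] (k : ℕ) (N : ℕ → Subgroup G)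
    (hn : ∀ i, (N i).Normal) (h0 : N 0 = ⊥) (hk : (N k).FiniteIndex)
    (hab : ∀ i < k, ⁅N (i + 1), N (i + 1)⁆ ≤ N i)
    (h : ∀ i < k, FactorA (N i) (N (i + 1)) ∨ FactorC (N i) (N (i + 1))) :
    ∃ B : ℕ, ∀ p : ℕ, p.Prime → B < p → ∀ z x : G, nrm p z x = 1 → z = 1 := by
  have h1 : ∀ j ≤ k, ∃ B : ℕ, ∀ p : ℕ, p.Prime → B < p → ∀ z ∈ N j, ∀ x : G,
      nrm p z x = 1 → z = 1 := by
    intro j
    induction j with
    | zero =>
      intro _
      refine ⟨0, fun p _ _ z hz x _ => ?_⟩
      rw [h0] at hz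
      exact Subgroup.mem_bot.1 hz
    | succ j ih =>
      intro hj
      obtain ⟨B, hB⟩ := ih (by omega)
      have := hn j
      have := hn (j + 1)
      obtain ⟨B', hB'⟩ := factor_step (N j) (N (j + 1)) (hab j (by omega))
        (h j (by omega))
      refine ⟨max B B', fun p hp hBp z hz x hx => ?_⟩
      have h2 := hB' p hp (lt_of_le_of_lt (le_max_right _ _) hBp) z hz x (by
        rw [hx]; exact (N j).one_mem)
      exact hB p hp (lt_of_le_of_lt (le_max_left _ _) hBp) z h2 x hx
  obtain ⟨B, hB⟩ := h1 k le_rfl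
  have := hn k
  obtain ⟨B', hB'⟩ := finite_step (N k)
  exact ⟨max B B', fun p hp hBp z x hx => hB p hp (lt_of_le_of_lt (le_max_left _ _) hBp) z
    (hB' p hp (lt_of_le_of_lt (le_max_right _ _) hBp) z x (by rw [hx]; exact (N k).one_mem)) x hx⟩

/-- the derived subgroup of a finitely generated group is the normal closure of a finite set -/
theorem commutator_fg {G : Type*} [Group G] (t : Finset G) (ht : Subgroup.closure (t : Set G) = ⊤) :
    ∃ T : Finset G, commutator G = Subgroup.normalClosure (T : Set G) := by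
  classical
  refine ⟨Finset.image₂ (fun a b => ⁅a, b⁆) t t, ?_⟩
  set T := Finset.image₂ (fun a b => ⁅a, b⁆) t t with hT
  apply le_antisymm
  · set N := Subgroup.normalClosure (T : Set G) with hN
    have hcomm : ∀ a b : G ⧸ N, a * b = b * a := by
      have h1 : Subgroup.closure ((QuotientGroup.mk' N) '' (t : Set G)) = ⊤ := by
        rw [← MonoidHom.map_closure, ht, Subgroup.map_top_of_surjective _
          (QuotientGroup.mk'_surjective N)]
      have h2 : ∀ a ∈ (QuotientGroup.mk' N) '' (t : Set G),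
          ∀ b ∈ (QuotientGroup.mk' N) '' (t : Set G), a * b = b * a := by
        rintro _ ⟨a, ha, rfl⟩ _ ⟨b, hb, rfl⟩
        rw [← commutatorElement_eq_one_iff_mul_comm, ← map_commutatorElement,
          QuotientGroup.mk'_apply, QuotientGroup.eq_one_iff]
        apply Subgroup.subset_normalClosure
        rw [hT, Finset.mem_coe, Finset.mem_image₂]
        exact ⟨a, ha, b, hb, rfl⟩
      intro a b
      have ha : a ∈ Subgroup.closure ((QuotientGroup.mk' N) '' (t : Set G)) := by rw [h1]; trivial
      have hb : b ∈ Subgroup.closure ((QuotientGroup.mk' N) '' (t : Set G)) := by rw [h1]; trivial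
      induction ha, hb using Subgroup.closure_induction₂ with
      | mem x y hx hy => exact h2 x hx y hy
      | one_left x _ => simp
      | one_right x _ => simp
      | mul_left x y z _ _ _ h1 h2 => rw [mul_assoc, h2, ← mul_assoc, h1, mul_assoc]
      | mul_right x y z _ _ _ h1 h2 => rw [← mul_assoc, h1, mul_assoc, h2, ← mul_assoc]
      | inv_left x y _ _ h => exact (Commute.inv_left h)
      | inv_right x y _ _ h => exact (Commute.inv_right h)
    rw [commutator_def, Subgroup.commutator_le]
    intro a _ b _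
    have h3 := hcomm (QuotientGroup.mk' N a) (QuotientGroup.mk' N b)
    rw [← commutatorElement_eq_one_iff_mul_comm, ← map_commutatorElement,
      QuotientGroup.mk'_apply, QuotientGroup.eq_one_iff] at h3
    exact h3
  · apply Subgroup.normalClosure_le_normal
    intro y hy
    rw [hT, Finset.mem_coe, Finset.mem_image₂] at hy
    obtain ⟨a, _, b, _, rfl⟩ := hy
    exact Subgroup.commutator_mem_commutator (Subgroup.mem_top a) (Subgroup.mem_top b)

/-- Unique `p`-th roots for finitely generated metabelian groups. -/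
theorem metabelian_bound {G : Type*} [Group G] [hfg : Group.FG G]
    (hG : derivedSeries G 2 = ⊥) :
    ∃ B : ℕ, ∀ p : ℕ, p.Prime → B < p → ∀ z x : G, nrm p z x = 1 → z = 1 := by
  classical
  obtain ⟨t, ht⟩ := (Group.fg_def.1 hfg)
  obtain ⟨T, hT⟩ := commutator_fg t ht
  have hab : ⁅commutator G, commutator G⁆ = ⊥ := by
    have h1 : derivedSeries G 2 = ⁅commutator G, commutator G⁆ := by
      simp [derivedSeries_succ]
    rw [← h1]
    exact hG
  let N : ℕ → Subgroup G := fun i => match i with
    | 0 => ⊥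
    | 1 => commutator G
    | _ => ⊤
  have hT2 : (⊤ : Subgroup G) = commutator G ⊔ Subgroup.normalClosure (t : Set G) := by
    symm
    rw [eq_top_iff, ← ht]
    exact (Subgroup.closure_le_normalClosure).trans le_sup_right
  apply series_bound 2 N
  · intro i
    match i with
    | 0 => exact (inferInstance : (⊥ : Subgroup G).Normal)
    | 1 => exact (inferInstance : (commutator G).Normal)
    | (n + 2) => exact (inferInstance : (⊤ : Subgroup G).Normal)
  · rfl
  · exact (inferInstance : (⊤ : Subgroup G).FiniteIndex)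
  · intro i hi
    match i, hi with
    | 0, _ => exact hab.le
    | 1, _ => exact le_refl _
  · intro i hi
    left
    refine ⟨⊤, inferInstance, ?_, ?_⟩
    · match i, hi with
      | 0, _ => exact hab.le
      | 1, _ => exact (Subgroup.commutator_mono le_top le_top :
          ⁅⁅(⊤ : Subgroup G), (⊤ : Subgroup G)⁆, (⊤ : Subgroup G)⁆ ≤
            ⁅(⊤ : Subgroup G), (⊤ : Subgroup G)⁆)
    · match i, hi with
      | 0, _ => exact ⟨T, by rw [← hT]; simp [N]⟩
      | 1, _ => exact ⟨t, hT2⟩

/-- in a torsion-free group the factors of the upper central series are torsion-free -/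
theorem center_factor {G : Type*} [Group G] (hTF : TF G) (c : ℕ) :
    ∀ z ∈ Subgroup.upperCentralSeries G (c + 1), ∀ k : ℕ, 0 < k →
      z ^ k ∈ Subgroup.upperCentralSeries G c → z ∈ Subgroup.upperCentralSeries G c := by
  induction c with
  | zero =>
    intro z _ k hk hzk
    rw [Subgroup.upperCentralSeries_zero, Subgroup.mem_bot] at hzk ⊢
    by_contra hz
    exact hTF z hz k hk hzk
  | succ c ih =>
    intro z hz k hk hzk
    rw [Subgroup.mem_upperCentralSeries_succ_iff] at hz hzk ⊢
    intro y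
    have h1 := hz y
    apply ih _ h1 k hk
    have h2 : ∀ m : ℕ, ∃ e ∈ Subgroup.upperCentralSeries G c,
        z ^ m * y * (z ^ m)⁻¹ * y⁻¹ = e * (z * y * z⁻¹ * y⁻¹) ^ m := by
      intro m
      induction m with
      | zero => exact ⟨1, Subgroup.one_mem _, by simp⟩
      | succ m ihm =>
        obtain ⟨e, he, hem⟩ := ihm
        set w := z * y * z⁻¹ * y⁻¹ with hw
        have hwz := (Subgroup.mem_upperCentralSeries_succ_iff.1 h1) (z ^ m)
        have hnorm : (Subgroup.upperCentralSeries G c).Normal := inferInstance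
        refine ⟨z ^ m * w * (z ^ m)⁻¹ * w⁻¹ * (w * e * w⁻¹), ?_, ?_⟩
        · apply Subgroup.mul_mem
          · have h3 := Subgroup.inv_mem _ hwz
            have h4 : z ^ m * w * (z ^ m)⁻¹ * w⁻¹ = (w * (z ^ m) * w⁻¹ * (z ^ m)⁻¹)⁻¹ := by group
            rw [h4]
            exact h3
          · exact hnorm.conj_mem e he w
        · have h3 : z ^ (m + 1) * y * (z ^ (m + 1))⁻¹ * y⁻¹ =
              z ^ m * w * (z ^ m)⁻¹ * (z ^ m * y * (z ^ m)⁻¹ * y⁻¹) := by
            rw [hw]
            group
          rw [h3, hem]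
          rw [pow_succ' w m]
          group
    obtain ⟨e, he, hek⟩ := h2 k
    have h3 := hzk y
    rw [commutatorElement_def, hek] at h3
    exact (Subgroup.mul_mem_cancel_left _ he).1 h3

theorem nrm_central {H : Type*} [Group H] (p : ℕ) (z x : H) (h : ∀ y, z * y = y * z) :
    nrm p z x = z ^ p := by
  induction p with
  | zero => simp [nrm_zero]
  | succ p ih =>
    have h1 : (x ^ p)⁻¹ * z * x ^ p = z := by
      rw [mul_assoc, h (x ^ p), ← mul_assoc, inv_mul_cancel, one_mul]
    rw [nrm_succ, ih, pow_succ, h1]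

/-- lifting unique roots through the upper central series -/
theorem hyper_bound {G : Type*} [Group G] (hTF : TF G) (c : ℕ)
    (h : ∃ B : ℕ, ∀ p : ℕ, p.Prime → B < p → ∀ z x : G ⧸ Subgroup.upperCentralSeries G c,
      nrm p z x = 1 → z = 1) :
    ∃ B : ℕ, ∀ p : ℕ, p.Prime → B < p → ∀ z x : G, nrm p z x = 1 → z = 1 := by
  obtain ⟨B, hB⟩ := h
  refine ⟨B, fun p hp hBp z x hx => ?_⟩
  have h1 : z ∈ Subgroup.upperCentralSeries G c := by
    have h2 := hB p hp hBp (QuotientGroup.mk' _ z) (QuotientGroup.mk' _ x) (by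
      rw [← map_nrm, hx, map_one])
    rwa [QuotientGroup.mk'_apply, QuotientGroup.eq_one_iff] at h2
  have h2 : ∀ i : ℕ, i ≤ c → z ∈ Subgroup.upperCentralSeries G (c - i) := by
    intro i
    induction i with
    | zero => intro _; simpa using h1
    | succ i ih =>
      intro hi
      have h3 := ih (by omega)
      obtain ⟨d, hd⟩ : ∃ d, c - i = d + 1 := ⟨c - i - 1, by omega⟩
      have hd' : c - (i + 1) = d := by omega
      rw [hd] at h3
      rw [hd']
      apply center_factor hTF d z h3 p hp.pos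
      have h4 : nrm p (QuotientGroup.mk' (Subgroup.upperCentralSeries G d) z)
          (QuotientGroup.mk' (Subgroup.upperCentralSeries G d) x) = 1 := by
        rw [← map_nrm, hx, map_one]
      rw [nrm_central, ← map_pow, QuotientGroup.mk'_apply, QuotientGroup.eq_one_iff] at h4
      · exact h4
      · intro y
        obtain ⟨y, rfl⟩ := QuotientGroup.mk'_surjective _ y
        rw [← map_mul, ← map_mul, QuotientGroup.mk'_apply, QuotientGroup.mk'_apply,
          QuotientGroup.eq]
        have h5 := (Subgroup.mem_upperCentralSeries_succ_iff.1 h3) y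
        have hnorm : (Subgroup.upperCentralSeries G d).Normal := inferInstance
        have h6 := hnorm.conj_mem _ h5 ((y * z)⁻¹)
        have h7 : (z * y)⁻¹ * (y * z) =
            ((y * z)⁻¹ * (z * y * z⁻¹ * y⁻¹) * ((y * z)⁻¹)⁻¹)⁻¹ := by group
        rw [h7]
        exact Subgroup.inv_mem _ h6
  have h3 := h2 c le_rfl
  rw [Nat.sub_self, Subgroup.upperCentralSeries_zero, Subgroup.mem_bot] at h3
  exact h3

theorem lcs_normal {G : Type*} [Group G] (N : Subgroup G) [hN : N.Normal] (n : ℕ) :
    (N.lowerCentralSeries n).Normal := by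
  induction n with
  | zero => exact hN
  | succ n ih =>
    rw [Subgroup.lowerCentralSeries_succ]
    infer_instance

/-- Unique `p`-th roots for nilpotent-by-abelian-by-finite groups with `max-n`. -/
theorem maxn_bound {G : Type*} [Group G] [Group.FG G]
    (hmax : ∀ K : Subgroup G, K.Normal → ∃ T : Finset G, K = Subgroup.normalClosure (T : Set G))
    (G₀ : Subgroup G) [hG₀ : G₀.Normal] [hfi : G₀.FiniteIndex]
    (hnil : Group.IsNilpotent (⁅G₀, G₀⁆ : Subgroup G)) :
    ∃ B : ℕ, ∀ p : ℕ, p.Prime → B < p → ∀ z x : G, nrm p z x = 1 → z = 1 := by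
  classical
  obtain ⟨n, hn⟩ := (Subgroup.isNilpotent_iff_lowerCentralSeries _).1 hnil
  set N : Subgroup G := ⁅G₀, G₀⁆ with hNdef
  have hNn : N.Normal := by rw [hNdef]; infer_instance
  have hLn : ∀ i, (N.lowerCentralSeries i).Normal := lcs_normal N
  let C : ℕ → Subgroup G := fun i => if i ≤ n then N.lowerCentralSeries (n - i) else G₀
  have hC1 : ∀ i ≤ n, C i = N.lowerCentralSeries (n - i) := fun i hi => if_pos hi
  have hC2 : C (n + 1) = G₀ := if_neg (by omega)
  have hN1 : N ≤ G₀ := by
    rw [hNdef, Subgroup.commutator_le]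
    intro a ha b hb
    exact G₀.mul_mem (G₀.mul_mem (G₀.mul_mem ha hb) (G₀.inv_mem ha)) (G₀.inv_mem hb)
  apply series_bound (n + 1) C
  · intro i
    simp only [C]
    split_ifs
    · exact hLn _
    · exact hG₀
  · rw [hC1 0 (Nat.zero_le _), Nat.sub_zero]
    exact hn
  · rw [hC2]
    exact hfi
  · intro i hi
    rcases Nat.lt_or_ge i n with h | h
    · obtain ⟨d, hd⟩ : ∃ d, n - i = d + 1 := ⟨n - i - 1, by omega⟩
      have hd' : n - (i + 1) = d := by omega
      rw [hC1 i (by omega), hC1 (i + 1) (by omega), hd, hd', Subgroup.lowerCentralSeries_succ]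
      apply Subgroup.commutator_mono le_rfl
      exact N.lowerCentralSeries_antitone (Nat.zero_le d)
    · have h1 : i = n := by omega
      rw [h1, hC2, hC1 n le_rfl, Nat.sub_self, Subgroup.lowerCentralSeries_zero]
  · intro i hi
    left
    refine ⟨G₀, hfi, ?_, ?_⟩
    · rcases Nat.lt_or_ge i n with h | h
      · obtain ⟨d, hd⟩ : ∃ d, n - i = d + 1 := ⟨n - i - 1, by omega⟩
        have hd' : n - (i + 1) = d := by omega
        rw [hC1 i (by omega), hC1 (i + 1) (by omega), hd, hd', Subgroup.lowerCentralSeries_succ,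
          Subgroup.commutator_comm]
      · have h1 : i = n := by omega
        rw [h1, hC2, hC1 n le_rfl, Nat.sub_self, Subgroup.lowerCentralSeries_zero]
        exact Subgroup.commutator_mono hN1 le_rfl
    · rcases Nat.lt_or_ge i n with h | h
      · obtain ⟨d, hd⟩ : ∃ d, n - i = d + 1 := ⟨n - i - 1, by omega⟩
        have hd' : n - (i + 1) = d := by omega
        rw [hC1 i (by omega), hC1 (i + 1) (by omega), hd, hd']
        obtain ⟨T, hT⟩ := hmax _ (hLn d)
        refine ⟨T, ?_⟩
        rw [← hT]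
        symm
        rw [sup_eq_right]
        exact N.lowerCentralSeries_antitone (Nat.le_succ d)
      · have h1 : i = n := by omega
        rw [h1, hC2, hC1 n le_rfl, Nat.sub_self, Subgroup.lowerCentralSeries_zero]
        obtain ⟨T, hT⟩ := hmax _ hG₀
        refine ⟨T, ?_⟩
        rw [← hT]
        symm
        rw [sup_eq_right]
        exact hN1

/-- from norms to unique roots -/
theorem EProp_of_nrm {G : Type*} [Group G] (p : ℕ) (h : ∀ z x : G, nrm p z x = 1 → z = 1) :
    EProp p 0 G := by
  intro z x _ hn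
  rw [pow_zero, pow_one] at hn
  exact h z x hn

theorem infinite_of_bound {P : ℕ → Prop} (B : ℕ) (h : ∀ p : ℕ, p.Prime → B < p → P p) :
    {p : ℕ | p.Prime ∧ P p}.Infinite := by
  rw [Set.infinite_iff_exists_gt]
  intro n
  obtain ⟨p, hp, hpp⟩ := Nat.exists_infinite_primes (max n B + 1)
  refine ⟨p, ⟨hpp, h p hpp ?_⟩, ?_⟩
  · have := le_max_right n B
    omega
  · have := le_max_left n B
    omega

end Pool.Agent.Helper111.QI
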